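import Pool.Agent.R59.CK.Defs

set_option linter.unusedSectionVars false

namespace Pool.Agent.R59.CK

open scoped BigOperators

variable {V : Type} [Fintype V] [DecidableEq V]

lemma Pt.add_le_one (p : Pt V) {a b : V} (hab : a ≠ b) : p a + p b ≤ 1 := by
  have h1 := p.sum_one
  have h2 : p a + p b ≤ ∑ v, p v := by
    rw [← Finset.sum_pair hab]
    exact Finset.sum_le_sum_of_subset_of_nonneg (Finset.subset_univ _) (fun i _ _ => p.nonneg i)
  linarith

lemma Pt.le_one (p : Pt V) (a : V) : p a ≤ 1 := by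
  have h1 := p.sum_one
  have h2 : p a ≤ ∑ v, p v := Finset.single_le_sum (fun i _ => p.nonneg i) (Finset.mem_univ a)
  linarith

lemma OnSeg.sum_eq {p : Pt V} {a b : V} (h : OnSeg p a b) (hab : a ≠ b) : p a + p b = 1 := by
  have h1 := p.sum_one
  have h2 : ∑ v ∈ ({a, b} : Finset V), p v = ∑ v, p v := by
    apply Finset.sum_subset (Finset.subset_univ _)
    intro v _ hv
    simp only [Finset.mem_insert, Finset.mem_singleton, not_or] at hv
    exact h v hv.1 hv.2
  rw [Finset.sum_pair hab] at h2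
  linarith

lemma OnSeg.self_eq {p : Pt V} {a : V} (h : OnSeg p a a) : p a = 1 := by
  have h1 := p.sum_one
  have h2 : ∑ v, p v = p a := by
    apply Finset.sum_eq_single a
    · intro v _ hv
      exact h v hv hv
    · intro h'
      exact absurd (Finset.mem_univ a) h'
  linarith

lemma OnSeg.symm {p : Pt V} {a b : V} (h : OnSeg p a b) : OnSeg p b a := fun v h1 h2 => h v h2 h1

lemma Pt.exists_ne_zero (p : Pt V) : ∃ a, p a ≠ 0 := by
  by_contra h
  push Not at h
  have := p.sum_one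
  simp [h] at this

lemma finite_lengths (p q : Pt V) : {ℓ | PathLength p q ℓ}.Finite := by
  apply Set.Finite.subset
    (Set.Finite.union (Set.finite_range (fun ab : V × V => |p ab.1 - q ab.1|))
      (Set.finite_range (fun ab : V × V =>
        (1 - p ab.1) + (if ab.1 = ab.2 then 0 else 1) + (1 - q ab.2))))
  rintro ℓ (⟨a, b, -, -, h⟩ | ⟨a, b, -, -, h⟩)
  · exact Or.inl ⟨(a, b), h.symm⟩
  · exact Or.inr ⟨(a, b), h.symm⟩

lemma nonempty_lengths (p q : Pt V) : {ℓ | PathLength p q ℓ}.Nonempty := by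
  obtain ⟨a, ha⟩ := p.exists_ne_zero
  obtain ⟨b, hb⟩ := q.exists_ne_zero
  exact ⟨_, Or.inr ⟨a, b, ha, hb, rfl⟩⟩

lemma dist_le_iff (p q : Pt V) (x : ℝ) : dist p q ≤ x ↔ ∃ ℓ, PathLength p q ℓ ∧ ℓ ≤ x := by
  constructor
  · intro h
    exact ⟨_, (nonempty_lengths p q).csInf_mem (finite_lengths p q), h⟩
  · rintro ⟨ℓ, h1, h2⟩
    exact (csInf_le (finite_lengths p q).bddBelow h1).trans h2

lemma mem_ball (p q : Pt V) : q ∈ ball p ↔
    (∃ a b, OnSeg p a b ∧ OnSeg q a b ∧ |p a - q a| ≤ 1 / 2) ∨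
      ∃ a, 3 / 2 ≤ p a + q a := by
  change dist p q ≤ 1 / 2 ↔ _
  rw [dist_le_iff]
  constructor
  · rintro ⟨ℓ, (⟨a, b, h1, h2, h3⟩ | ⟨a, b, h1, h2, h3⟩), h4⟩
    · left
      exact ⟨a, b, h1, h2, h3 ▸ h4⟩
    · right
      refine ⟨a, ?_⟩
      have hp := p.le_one a
      have hq := q.le_one b
      by_cases hab : a = b
      · subst hab
        simp only [if_true] at h3
        linarith
      · rw [if_neg hab] at h3
        linarith
  · rintro (⟨a, b, h1, h2, h3⟩ | ⟨a, h⟩)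
    · exact ⟨_, Or.inl ⟨a, b, h1, h2, rfl⟩, h3⟩
    · refine ⟨_, Or.inr ⟨a, a, ?_, ?_, rfl⟩, ?_⟩
      · have hq := q.le_one a
        intro h0
        rw [h0] at h
        linarith
      · have hp := p.le_one a
        intro h0
        rw [h0] at h
        linarith
      · simp only [if_true]
        linarith

/-- The point of the segment `v w` with coordinate `s` at `v`. -/
def pt (v w : V) (s : ℝ) (h0 : 0 ≤ s) (h1 : s ≤ 1) : Pt V where
  coord := fun u => (if u = v then s else 0) + (if u = w then 1 - s else 0)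
  nonneg := by
    intro u
    have : 0 ≤ 1 - s := by linarith
    positivity
  sum_one := by
    rw [Finset.sum_add_distrib, Finset.sum_ite_eq', Finset.sum_ite_eq']
    simp
  seg := ⟨v, w, by
    intro u h1 h2
    simp [h1, h2]⟩

lemma pt_left {v w : V} (hvw : v ≠ w) (s : ℝ) (h0 : 0 ≤ s) (h1 : s ≤ 1) :
    (pt v w s h0 h1) v = s := by
  simp [pt, hvw]

lemma pt_right {v w : V} (hvw : v ≠ w) (s : ℝ) (h0 : 0 ≤ s) (h1 : s ≤ 1) :
    (pt v w s h0 h1) w = 1 - s := by
  simp [pt, hvw.symm]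

lemma pt_onSeg (v w : V) (s : ℝ) (h0 : 0 ≤ s) (h1 : s ≤ 1) : OnSeg (pt v w s h0 h1) v w := by
  intro u h1 h2
  simp [pt, h1, h2]

/-- The vertex `v` as a point. -/
def vtx (v : V) : Pt V := pt v v 1 zero_le_one le_rfl

lemma vtx_self (v : V) : (vtx v) v = 1 := by
  simp [vtx, pt]

lemma vtx_other {v u : V} (h : u ≠ v) : (vtx v) u = 0 := by
  simp [vtx, pt, h]

lemma vtx_onSeg (v w : V) : OnSeg (vtx v) v w := by
  intro u h1 _
  exact vtx_other h1

lemma eq_vtx {p : Pt V} {v : V} (h : p v = 1) : p = vtx v := by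
  apply Pt.ext
  funext u
  by_cases hu : u = v
  · subst hu
    exact h.trans (vtx_self u).symm
  · have h3 : (vtx v) u = 0 := vtx_other hu
    have := p.add_le_one hu
    have h2 := p.nonneg u
    change p u = (vtx v) u
    linarith

/-- Version of colourability in terms of classes of centres. -/
def Good (V : Type) [Fintype V] [DecidableEq V] (c : ℕ) : Prop :=
  ∃ P : Fin c → Set (Pt V),
    (∀ i, ∀ p ∈ P i, ∀ q ∈ P i, p ≠ q → Disjoint (ball p) (ball q)) ∧
      ∀ x, ∃ i, ∃ p ∈ P i, x ∈ ball p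

lemma Good.halfColourable {c : ℕ} (h : Good V c) : HalfColourable V c := by
  classical
  obtain ⟨P, hd, hc⟩ := h
  refine ⟨{B | ∃ i, ∃ p ∈ P i, B = ball p}, ?_, ?_, ?_⟩
  · rintro B ⟨i, p, -, rfl⟩
    exact ⟨p, rfl⟩
  · apply Set.eq_univ_of_forall
    intro x
    obtain ⟨i, p, hp, hx⟩ := hc x
    exact Set.mem_sUnion.2 ⟨ball p, ⟨i, p, hp, rfl⟩, hx⟩
  · refine ⟨fun B => B.2.choose, ?_⟩
    intro B B' hne hmeet heq
    obtain ⟨p, hp, hB⟩ := B.2.choose_spec
    obtain ⟨q, hq, hB'⟩ := B'.2.choose_spec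
    have heq' : B.2.choose = B'.2.choose := heq
    rw [← heq'] at hq
    have hpq : p ≠ q := by
      rintro rfl
      exact hne (Subtype.ext (hB.trans hB'.symm))
    have := hd _ p hp q hq hpq
    rw [← hB, ← hB'] at this
    exact (Set.not_disjoint_iff_nonempty_inter.2 hmeet) this

lemma HalfColourable.good {c : ℕ} (h : HalfColourable V c) : Good V c := by
  classical
  obtain ⟨𝓑, hb, hcov, f, hf⟩ := h
  choose cen hcen using hb
  refine ⟨fun i => {p | ∃ B : 𝓑, f B = i ∧ p = cen B.1 B.2}, ?_, ?_⟩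
  · rintro i p ⟨B, hB, rfl⟩ q ⟨B', hB', rfl⟩ hne
    have hBB : B ≠ B' := by
      rintro rfl
      exact hne rfl
    rw [Set.disjoint_iff_inter_eq_empty]
    by_contra hcon
    have hmeet : ((ball (cen B.1 B.2)) ∩ (ball (cen B'.1 B'.2))).Nonempty :=
      Set.nonempty_iff_ne_empty.2 hcon
    rw [← hcen B.1 B.2, ← hcen B'.1 B'.2] at hmeet
    exact hf B B' hBB hmeet (hB.trans hB'.symm)
  · intro x
    have hx : x ∈ ⋃₀ 𝓑 := by rw [hcov]; trivial
    obtain ⟨B, hB, hxB⟩ := Set.mem_sUnion.1 hx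
    refine ⟨f ⟨B, hB⟩, cen B hB, ⟨⟨B, hB⟩, rfl, rfl⟩, ?_⟩
    rw [← hcen B hB]
    exact hxB

end Pool.Agent.R59.CK
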