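import Pool.Agent.R59.CK.Pos

set_option linter.unusedSectionVars false
set_option linter.unusedVariables false

namespace Pool.Agent.R59.CK

open scoped BigOperators

lemma zne {N : ℕ} {a b : ℤ} (h1 : 0 < b - a) (h2 : b - a < N) :
    (a : ZMod N) ≠ (b : ZMod N) := by
  intro h
  rw [ZMod.intCast_eq_intCast_iff_dvd_sub] at h
  have := Int.le_of_dvd h1 h
  omega

lemma zne' {N : ℕ} {a b : ℤ} (h1 : (N : ℤ) < b - a) (h2 : b - a < 2 * N) :
    (a : ZMod N) ≠ (b : ZMod N) := by
  intro h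
  rw [ZMod.intCast_eq_intCast_iff_dvd_sub] at h
  have h' : (N : ℤ) ∣ b - a - N := dvd_sub_self_right.2 h
  have := Int.le_of_dvd (by omega) h'
  omega

/-- index of the residue -/
def hub (μ : ℕ) (j : ℕ) : ZMod (2 * μ + 1) := (((μ : ℤ) * (j : ℤ) : ℤ) : ZMod (2 * μ + 1))

/-- the ordinary owner -/
def ow (μ : ℕ) (j y : ℕ) : ZMod (2 * μ + 1) :=
  (((μ : ℤ) * (j : ℤ) + μ - y : ℤ) : ZMod (2 * μ + 1))

/-- the vertex at infinity (present when `e = 1`) -/
def inf (μ e : ℕ) : ZMod (2 * μ + 1) ⊕ Fin e := if h : 0 < e then Sum.inr ⟨0, h⟩ else Sum.inl 0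

lemma inf_eq {μ e : ℕ} (h : 0 < e) : inf μ e = Sum.inr ⟨0, h⟩ := by
  unfold inf
  rw [dif_pos h]

/-- owner of the edge at position `p` -/
def own (μ e p : ℕ) : ZMod (2 * μ + 1) ⊕ Fin e :=
  if 0 < e ∧ p = μ then inf μ e else Sum.inl (ow μ (p / (μ + e)) (p % (μ + e)))

/-- target of the edge at position `p` -/
def tgt (μ e p : ℕ) : ZMod (2 * μ + 1) ⊕ Fin e :=
  if 0 < e ∧ μ ≤ p % (μ + e) ∧ p ≠ μ then inf μ e else Sum.inl (hub μ (p / (μ + e)))

/-- rank in the block `i` -/
def rkc (μ e L : ℕ) (i : ℕ) : ZMod (2 * μ + 1) ⊕ Fin e → ℕ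
  | Sum.inr _ => if i = 0 then 4 else 0
  | Sum.inl x => if x = hub μ (i * L / (μ + e)) then 1
      else if x = hub μ (i * L / (μ + e) + 1) then 2
      else if x = hub μ (i * L / (μ + e) + 2) then 3 else 4

lemma zmod_key (μ : ℕ) : (2 : ZMod (2 * μ + 1)) * (μ : ZMod (2 * μ + 1)) + 1 = 0 := by
  have h := ZMod.natCast_self (2 * μ + 1)
  push_cast at h
  exact h

/-- Two positions in the same block. -/
lemma block_lt {L p p' : ℕ} (hL : 0 < L) (h : p / L = p' / L) : p' < p + L := by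
  have h1 := Nat.div_add_mod p L
  have h2 := Nat.div_add_mod p' L
  rw [← h] at h2
  have h3 := Nat.mod_lt p' hL
  omega

lemma own_inj_aux {μ e L : ℕ} (hμ : 2 ≤ μ) (he : e ≤ 1) (hL0 : 0 < L) (hL : L + 1 ≤ 2 * (μ + e))
    {p p' : ℕ} (hle : p ≤ p') (hb : p / L = p' / L) (ho : own μ e p = own μ e p') : p = p' := by
  have hlt := block_lt hL0 hb
  unfold own at ho
  split_ifs at ho with h1 h2 h3
  · omega
  · rw [inf_eq h1.1] at ho
    exact absurd ho (by simp)
  · rw [inf_eq h3.1] at ho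
    exact absurd ho (by simp)
  · have ho := Sum.inl_injective ho
    set lam := μ + e with hlam
    have hlam0 : 0 < lam := by omega
    have e1 := Nat.div_add_mod p lam
    have e2 := Nat.div_add_mod p' lam
    have e3 := Nat.mod_lt p hlam0
    have e4 := Nat.mod_lt p' hlam0
    have e5 : p / lam ≤ p' / lam := Nat.div_le_div_right hle
    set j := p / lam
    set j' := p' / lam
    set y := p % lam
    set y' := p' % lam
    clear_value j j' y y'
    obtain ⟨δ, rfl⟩ : ∃ δ, j' = j + δ := ⟨j' - j, by omega⟩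
    have hδ : δ ≤ 2 := by
      by_contra hcon
      push Not at hcon
      have : lam * 3 ≤ lam * δ := Nat.mul_le_mul_left _ hcon
      rw [Nat.mul_add] at e2
      omega
    unfold ow at ho
    rw [Nat.mul_add] at e2
    interval_cases δ
    · rcases lt_trichotomy y y' with h | h | h
      · exfalso
        exact zne (N := 2 * μ + 1) (a := (μ : ℤ) * ((j + 0 : ℕ) : ℤ) + μ - y')
          (b := (μ : ℤ) * (j : ℤ) + μ - y) (by push_cast; ring_nf; omega)
          (by push_cast; ring_nf; omega) ho.symm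
      · omega
      · exfalso
        exact zne (N := 2 * μ + 1) (b := (μ : ℤ) * ((j + 0 : ℕ) : ℤ) + μ - y')
          (a := (μ : ℤ) * (j : ℤ) + μ - y) (by push_cast; ring_nf; omega)
          (by push_cast; ring_nf; omega) ho
    · exfalso
      exact zne (N := 2 * μ + 1) (b := (μ : ℤ) * ((j + 1 : ℕ) : ℤ) + μ - y')
          (a := (μ : ℤ) * (j : ℤ) + μ - y) (by push_cast; ring_nf; omega)
          (by push_cast; ring_nf; omega) ho
    · exfalso
      by_cases h : y ≤ y'
      · exact zne (N := 2 * μ + 1) (b := (μ : ℤ) * ((j + 2 : ℕ) : ℤ) + μ - y')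
          (a := (μ : ℤ) * (j : ℤ) + μ - y) (by push_cast; ring_nf; omega)
          (by push_cast; ring_nf; omega) ho
      · exact zne' (N := 2 * μ + 1) (b := (μ : ℤ) * ((j + 2 : ℕ) : ℤ) + μ - y')
          (a := (μ : ℤ) * (j : ℤ) + μ - y) (by push_cast; ring_nf; omega)
          (by push_cast; ring_nf; omega) ho

lemma own_inj {μ e L : ℕ} (hμ : 2 ≤ μ) (he : e ≤ 1) (hL0 : 0 < L) (hL : L + 1 ≤ 2 * (μ + e))
    {p p' : ℕ} (hb : p / L = p' / L) (ho : own μ e p = own μ e p') : p = p' := by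
  rcases le_total p p' with h | h
  · exact own_inj_aux hμ he hL0 hL h hb ho
  · exact (own_inj_aux hμ he hL0 hL h hb.symm ho.symm).symm


lemma ow_top (μ j : ℕ) : ow μ j μ = hub μ j := by
  unfold ow hub
  congr 1
  ring

lemma rkc_inl (μ e L i : ℕ) (x : ZMod (2 * μ + 1)) : rkc μ e L i (Sum.inl x) =
    if x = hub μ (i * L / (μ + e)) then 1
      else if x = hub μ (i * L / (μ + e) + 1) then 2
      else if x = hub μ (i * L / (μ + e) + 2) then 3 else 4 := rfl

lemma rkc_inr (μ e L i : ℕ) (x : Fin e) : rkc μ e L i (Sum.inr x) = if i = 0 then 4 else 0 := rfl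

lemma hub_d1 {μ : ℕ} (hμ : 2 ≤ μ) (j0 : ℕ) : hub μ (j0 + 1) ≠ hub μ j0 := by
  unfold hub
  apply Ne.symm
  apply zne <;> push_cast <;> ring_nf <;> omega

lemma hub_d2 {μ : ℕ} (hμ : 2 ≤ μ) (j0 : ℕ) : hub μ (j0 + 2) ≠ hub μ j0 := by
  unfold hub
  apply Ne.symm
  apply zne <;> push_cast <;> ring_nf <;> omega

lemma ow_ne0 {μ : ℕ} (j0 y : ℕ) (hy : y < μ) : ow μ j0 y ≠ hub μ j0 := by
  unfold ow hub
  apply Ne.symm
  apply zne <;> push_cast <;> ring_nf <;> omega

lemma ow_ne1 {μ : ℕ} (j0 y : ℕ) (hy : y < μ) : ow μ (j0 + 1) y ≠ hub μ j0 := by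
  unfold ow hub
  apply Ne.symm
  apply zne <;> push_cast <;> ring_nf <;> omega

lemma ow_ne2 {μ : ℕ} (j0 y : ℕ) (hy : y + 1 < μ) : ow μ (j0 + 2) y ≠ hub μ j0 := by
  unfold ow hub
  apply Ne.symm
  apply zne' <;> push_cast <;> ring_nf <;> omega

lemma rk_lt {μ e L : ℕ} (hμ : 2 ≤ μ) (he : e ≤ 1) (hL0 : 0 < L) (hL : L + 1 ≤ 2 * (μ + e))
    (hL2 : μ + e ≤ L) (p : ℕ) : rkc μ e L (p / L) (tgt μ e p) < rkc μ e L (p / L) (own μ e p) := by
  obtain ⟨lam, hlam⟩ : ∃ lam, lam = μ + e := ⟨_, rfl⟩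
  rw [← hlam] at hL hL2
  have hlam0 : 0 < lam := by omega
  have e0 := Nat.div_add_mod p L
  have e00 := Nat.mod_lt p hL0
  obtain ⟨i, hi⟩ : ∃ i, i = p / L := ⟨_, rfl⟩
  rw [← hi] at e0 ⊢
  have e1 := Nat.div_add_mod p lam
  have e2 := Nat.div_add_mod (i * L) lam
  have e3 := Nat.mod_lt p hlam0
  have e4 := Nat.mod_lt (i * L) hlam0
  have e6 : i * L ≤ p := by rw [Nat.mul_comm]; omega
  have e5 : i * L / lam ≤ p / lam := Nat.div_le_div_right e6
  have e7 : p < i * L + L := by rw [Nat.mul_comm]; omega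
  have hi0 : p ≠ μ → μ ≤ p % lam → i ≠ 0 := by
    intro h1 h2 h3
    rw [h3] at e0
    by_cases hj : p / lam = 0
    · rw [hj] at e1
      omega
    · have : lam * 1 ≤ lam * (p / lam) := Nat.mul_le_mul_left _ (Nat.pos_of_ne_zero hj)
      omega
  have hi1 : p = μ → 0 < e → i = 0 := by
    intro h1 h2
    rw [hi]
    apply Nat.div_eq_of_lt
    omega
  have hpy : p = μ → 0 < e → p / lam = 0 ∧ p % lam = μ := by
    intro h1 h2
    rw [h1]
    exact ⟨Nat.div_eq_of_lt (by omega), Nat.mod_eq_of_lt (by omega)⟩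
  have hj00 : i = 0 → i * L / lam = 0 := by
    intro h
    rw [h]
    simp
  -- values of `own` and `tgt`
  have ho1 : (0 < e ∧ p = μ) → own μ e p = inf μ e := fun h => by
    unfold own; rw [if_pos h]
  have ho2 : ¬ (0 < e ∧ p = μ) → own μ e p = Sum.inl (ow μ (p / lam) (p % lam)) := fun h => by
    unfold own; rw [if_neg h, ← hlam]
  have ht1 : (0 < e ∧ μ ≤ p % lam ∧ p ≠ μ) → tgt μ e p = inf μ e := fun h => by
    unfold tgt; rw [← hlam, if_pos h]
  have ht2 : ¬ (0 < e ∧ μ ≤ p % lam ∧ p ≠ μ) → tgt μ e p = Sum.inl (hub μ (p / lam)) := fun h => by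
    unfold tgt; rw [← hlam, if_neg h]
  have hrk1 : ∀ x, rkc μ e L i (Sum.inl x) = if x = hub μ (i * L / lam) then 1
      else if x = hub μ (i * L / lam + 1) then 2
      else if x = hub μ (i * L / lam + 2) then 3 else 4 := by
    intro x
    rw [rkc_inl, ← hlam]
  generalize p / lam = j at *
  generalize i * L / lam = j0 at *
  generalize p % lam = y at *
  generalize i * L % lam = y0 at *
  obtain ⟨δ, rfl⟩ : ∃ δ, j = j0 + δ := ⟨j - j0, by omega⟩
  have hδ : δ ≤ 2 := by
    by_contra hcon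
    push Not at hcon
    have : lam * 3 ≤ lam * δ := Nat.mul_le_mul_left _ hcon
    rw [Nat.mul_add] at e1
    omega
  rw [Nat.mul_add] at e1
  have d1 := hub_d1 hμ j0
  have d2 := hub_d2 hμ j0
  have d3 := hub_d1 hμ (j0 + 1)
  by_cases hyμ : μ ≤ y
  · have he1 : 0 < e := by omega
    have hyy : y = μ := by omega
    by_cases hpμ : p = μ
    · have h0 := hi1 hpμ he1
      have h1 := hj00 h0
      have h2 := (hpy hpμ he1).1
      have h3 : δ = 0 := by omega
      subst h3
      rw [ho1 ⟨he1, hpμ⟩, ht2 (fun h => h.2.2 hpμ), inf_eq he1, hrk1, rkc_inr, if_pos h0,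
        Nat.add_zero j0, if_pos rfl]
      omega
    · have h0 := hi0 hpμ hyμ
      rw [ho2 (fun h => hpμ h.2), ht1 ⟨he1, hyμ, hpμ⟩, inf_eq he1, hrk1, rkc_inr, if_neg h0]
      split_ifs <;> omega
  · have hne : ¬ (0 < e ∧ p = μ) := by
      rintro ⟨h1, h2⟩
      have := (hpy h2 h1).2
      omega
    rw [ho2 hne, ht2 (fun h => hyμ h.2.1), hrk1, hrk1]
    have hy : y < μ := by omega
    interval_cases δ
    · rw [Nat.add_zero j0, if_pos rfl, if_neg (ow_ne0 _ _ hy)]
      split_ifs <;> omega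
    · rw [if_neg d1, if_pos rfl, if_neg (ow_ne1 _ _ hy), if_neg (ow_ne0 _ _ hy)]
      split_ifs <;> omega
    · have hy2 : y + 1 < μ := by omega
      rw [if_neg d2, if_neg d3, if_pos rfl, if_neg (ow_ne2 _ _ hy2), if_neg (ow_ne1 _ _ hy),
        if_neg (ow_ne0 _ _ hy)]
      omega

/-- index of the half whose hub is `x` -/
def idx (μ : ℕ) (x : ZMod (2 * μ + 1)) : ℕ := (-2 * x).val

lemma idx_lt (μ : ℕ) (x : ZMod (2 * μ + 1)) : idx μ x < 2 * μ + 1 := ZMod.val_lt _

lemma hub_idx (μ : ℕ) (x : ZMod (2 * μ + 1)) : hub μ (idx μ x) = x := by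
  unfold hub idx
  have h := zmod_key μ
  rw [Int.cast_mul, Int.cast_natCast, Int.cast_natCast, ZMod.natCast_zmod_val]
  linear_combination (-x) * h

lemma idx_hub {μ : ℕ} {x : ZMod (2 * μ + 1)} {j : ℕ} (hj : j < 2 * μ + 1) (h : hub μ j = x) :
    j = idx μ x := by
  unfold hub at h
  unfold idx
  have h0 := zmod_key μ
  rw [Int.cast_mul, Int.cast_natCast, Int.cast_natCast] at h
  have h1 : -2 * x = (j : ZMod (2 * μ + 1)) := by
    rw [← h]
    linear_combination (-(j : ZMod (2 * μ + 1))) * h0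
  rw [h1, ZMod.val_natCast, Nat.mod_eq_of_lt hj]

lemma ow_eq (μ j y : ℕ) : ow μ j y = hub μ j + (μ - y : ZMod (2 * μ + 1)) := by
  unfold ow hub
  push_cast
  ring


/-- the position of the edge owned by `x` with residue `y` -/
def posOf (μ e : ℕ) (x : ZMod (2 * μ + 1)) (y : ℕ) : ℕ :=
  (μ + e) * idx μ (x - (μ - y : ZMod (2 * μ + 1))) + y

lemma circ_cov {μ e : ℕ} (hμ : 2 ≤ μ) (he : e ≤ 1) (a b : ZMod (2 * μ + 1) ⊕ Fin e)
    (hab : a ≠ b) : ∃ p, p < (μ + e) * (2 * μ + 1) ∧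
      ((own μ e p = a ∧ tgt μ e p = b) ∨ (own μ e p = b ∧ tgt μ e p = a)) := by
  have hbound : ∀ j y, j < 2 * μ + 1 → y < μ + e →
      (μ + e) * j + y < (μ + e) * (2 * μ + 1) := by
    intro j y hj hy
    have h1 : (μ + e) * (j + 1) ≤ (μ + e) * (2 * μ + 1) := Nat.mul_le_mul_left _ hj
    rw [Nat.mul_add] at h1
    omega
  have hdiv : ∀ j y, y < μ + e → ((μ + e) * j + y) / (μ + e) = j := by
    intro j y hy
    rw [Nat.mul_add_div (by omega), Nat.div_eq_of_lt hy, Nat.add_zero]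
  have hmod : ∀ j y, y < μ + e → ((μ + e) * j + y) % (μ + e) = y := by
    intro j y hy
    rw [Nat.mul_add_mod, Nat.mod_eq_of_lt hy]
  -- ordinary edges
  have h1 : ∀ (a b : ZMod (2 * μ + 1)), 0 < (a - b).val → (a - b).val ≤ μ →
      ∃ p, p < (μ + e) * (2 * μ + 1) ∧ own μ e p = Sum.inl a ∧ tgt μ e p = Sum.inl b := by
    intro a b hd0 hd1
    have hy : μ - (a - b).val < μ + e := by omega
    refine ⟨(μ + e) * idx μ b + (μ - (a - b).val), hbound _ _ (idx_lt μ b) hy, ?_, ?_⟩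
    · have hne : ¬ (0 < e ∧ (μ + e) * idx μ b + (μ - (a - b).val) = μ) := by
        rintro ⟨h1, h2⟩
        have h3 := hmod (idx μ b) _ hy
        rw [h2, Nat.mod_eq_of_lt (by omega)] at h3
        omega
      unfold own
      rw [if_neg hne, hdiv _ _ hy, hmod _ _ hy, ow_eq, hub_idx]
      congr 1
      rw [Nat.cast_sub hd1, ZMod.natCast_zmod_val]
      ring
    · have hne : ¬ (0 < e ∧ μ ≤ ((μ + e) * idx μ b + (μ - (a - b).val)) % (μ + e) ∧
          (μ + e) * idx μ b + (μ - (a - b).val) ≠ μ) := by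
        rintro ⟨h1, h2, h3⟩
        rw [hmod _ _ hy] at h2
        omega
      unfold tgt
      rw [if_neg hne, hdiv _ _ hy, hub_idx]
  have h1' : ∀ (a b : ZMod (2 * μ + 1)), a ≠ b → ∃ p, p < (μ + e) * (2 * μ + 1) ∧
      ((own μ e p = Sum.inl a ∧ tgt μ e p = Sum.inl b) ∨
        (own μ e p = Sum.inl b ∧ tgt μ e p = Sum.inl a)) := by
    intro a b hab
    have hne : a - b ≠ 0 := sub_ne_zero.2 hab
    have hpos : 0 < (a - b).val := Nat.pos_of_ne_zero (fun h => hne ((ZMod.val_eq_zero _).1 h))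
    by_cases hd : (a - b).val ≤ μ
    · obtain ⟨p, h1, h2, h3⟩ := h1 a b hpos hd
      exact ⟨p, h1, Or.inl ⟨h2, h3⟩⟩
    · have hne' : b - a ≠ 0 := sub_ne_zero.2 hab.symm
      have hpos' : 0 < (b - a).val := Nat.pos_of_ne_zero (fun h => hne' ((ZMod.val_eq_zero _).1 h))
      have hneg : (b - a).val = 2 * μ + 1 - (a - b).val := by
        rw [← neg_sub a b, ZMod.neg_val, if_neg hne]
      obtain ⟨p, h1, h2, h3⟩ := h1 b a hpos' (by omega)
      exact ⟨p, h1, Or.inr ⟨h2, h3⟩⟩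
  -- edges to infinity
  have h2 : ∀ (a : ZMod (2 * μ + 1)) (z : Fin e), ∃ p, p < (μ + e) * (2 * μ + 1) ∧
      ((own μ e p = Sum.inl a ∧ tgt μ e p = Sum.inr z) ∨
        (own μ e p = Sum.inr z ∧ tgt μ e p = Sum.inl a)) := by
    intro a z
    have he0 : 0 < e := lt_of_le_of_lt (Nat.zero_le _) z.2
    have hz : z = ⟨0, he0⟩ := Fin.ext (by have := z.2; change z.1 = 0; omega)
    have hy : μ < μ + e := by omega
    refine ⟨(μ + e) * idx μ a + μ, hbound _ _ (idx_lt μ a) hy, ?_⟩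
    by_cases hp : (μ + e) * idx μ a + μ = μ
    · right
      constructor
      · unfold own
        rw [if_pos ⟨he0, hp⟩, inf_eq he0, hz]
      · unfold tgt
        rw [if_neg (fun h => h.2.2 hp), hdiv _ _ hy, hub_idx]
    · left
      constructor
      · unfold own
        rw [if_neg (fun h => hp h.2), hdiv _ _ hy, hmod _ _ hy, ow_top, hub_idx]
      · unfold tgt
        rw [if_pos ⟨he0, (hmod _ _ hy).ge, hp⟩, inf_eq he0, hz]
  rcases a with a | z <;> rcases b with b | z'
  · exact h1' a b (fun h => hab (by rw [h]))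
  · exact h2 a z'
  · obtain ⟨p, h1, h | h⟩ := h2 b z
    · exact ⟨p, h1, Or.inr h⟩
    · exact ⟨p, h1, Or.inl h⟩
  · exfalso
    apply hab
    congr 1
    exact Fin.ext (by have := z.2; have := z'.2; omega)

lemma circ_child {μ e L c : ℕ} (hμ : 2 ≤ μ) (he : e ≤ 1) (hL : L + 1 ≤ 2 * (μ + e))
    (hL2 : μ + e ≤ L) (hc : μ + e + 3 ≤ c) (v : ZMod (2 * μ + 1) ⊕ Fin e) :
    ∃ i, i < c ∧ (∀ p, p < (μ + e) * (2 * μ + 1) → p / L = i → tgt μ e p ≠ v) ∧
      (∀ p, p < (μ + e) * (2 * μ + 1) → own μ e p = v → (p / L + (2 + p % L)) % c ≠ i) := by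
  have hL0 : 0 < L := by omega
  have hlam0 : 0 < μ + e := by omega
  have hdivlt : ∀ p, p < (μ + e) * (2 * μ + 1) → p / (μ + e) < 2 * μ + 1 := fun p hp =>
    Nat.div_lt_of_lt_mul hp
  rcases v with x | z
  · classical
    set B : Finset ℕ := {(μ + e) * idx μ x / L, (μ + e) * idx μ x / L + 1} ∪
      (Finset.range (μ + e)).image (fun y => (posOf μ e x y / L + (2 + posOf μ e x y % L)) % c)
      with hB
    have hcard : B.card < (Finset.range c).card := by
      have h1 := Finset.card_union_le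
        ({(μ + e) * idx μ x / L, (μ + e) * idx μ x / L + 1} : Finset ℕ)
        ((Finset.range (μ + e)).image (fun y => (posOf μ e x y / L + (2 + posOf μ e x y % L)) % c))
      have h2 := Finset.card_le_two (a := (μ + e) * idx μ x / L) (b := (μ + e) * idx μ x / L + 1)
      have h3 := Finset.card_image_le (s := Finset.range (μ + e))
        (f := fun y => (posOf μ e x y / L + (2 + posOf μ e x y % L)) % c)
      rw [Finset.card_range] at h3 ⊢
      rw [← hB] at h1
      omega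
    obtain ⟨i, hi, hiB⟩ := Finset.exists_mem_notMem_of_card_lt_card hcard
    rw [Finset.mem_range] at hi
    refine ⟨i, hi, ?_, ?_⟩
    · intro p hp hpi ht
      apply hiB
      rw [hB]
      apply Finset.mem_union_left
      have hhub : hub μ (p / (μ + e)) = x := by
        unfold tgt at ht
        split_ifs at ht with h
        · rw [inf_eq h.1] at ht
          exact absurd ht (by simp)
        · exact Sum.inl_injective ht
      have hj := idx_hub (hdivlt p hp) hhub
      have e1 := Nat.div_add_mod p (μ + e)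
      have e2 := Nat.mod_lt p hlam0
      rw [← hj]
      have h3 : (μ + e) * (p / (μ + e)) ≤ p := by omega
      have h4 : (μ + e) * (p / (μ + e)) / L ≤ p / L := Nat.div_le_div_right h3
      have h5 : p / L ≤ ((μ + e) * (p / (μ + e)) + L) / L := Nat.div_le_div_right (by omega)
      rw [Nat.add_div_right _ hL0] at h5
      rw [Finset.mem_insert, Finset.mem_singleton, ← hpi]
      omega
    · intro p hp ho hcon
      apply hiB
      rw [hB]
      apply Finset.mem_union_right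
      have how : ow μ (p / (μ + e)) (p % (μ + e)) = x := by
        unfold own at ho
        split_ifs at ho with h
        · rw [inf_eq h.1] at ho
          exact absurd ho (by simp)
        · exact Sum.inl_injective ho
      rw [ow_eq] at how
      have hhub : hub μ (p / (μ + e)) = x - (μ - (p % (μ + e) : ℕ) : ZMod (2 * μ + 1)) := by
        rw [← how]
        ring
      have hj := idx_hub (hdivlt p hp) hhub
      have hpos : posOf μ e x (p % (μ + e)) = p := by
        unfold posOf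
        rw [← hj]
        exact Nat.div_add_mod p (μ + e)
      rw [Finset.mem_image]
      refine ⟨p % (μ + e), Finset.mem_range.2 (Nat.mod_lt _ hlam0), ?_⟩
      rw [hpos]
      exact hcon
  · have he0 : 0 < e := lt_of_le_of_lt (Nat.zero_le _) z.2
    refine ⟨0, by omega, ?_, ?_⟩
    · intro p hp hp0 ht
      unfold tgt at ht
      split_ifs at ht with h
      have e1 := Nat.div_add_mod p (μ + e)
      have e2 := Nat.div_add_mod p L
      have e3 := Nat.mod_lt p hL0
      rw [hp0] at e2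
      have hj : p / (μ + e) ≠ 0 := by
        intro h0
        rw [h0] at e1
        have := Nat.mod_lt p hlam0
        omega
      have : (μ + e) * 1 ≤ (μ + e) * (p / (μ + e)) :=
        Nat.mul_le_mul_left _ (Nat.pos_of_ne_zero hj)
      omega
    · intro p hp ho hcon
      have hpμ : p = μ := by
        unfold own at ho
        split_ifs at ho with h
        exact h.2
      subst hpμ
      rw [Nat.div_eq_of_lt (by omega), Nat.mod_eq_of_lt (by omega : p < L),
        Nat.mod_eq_of_lt (by omega)] at hcon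
      omega

/-- The circular construction. -/
theorem circ_sys {μ e L c : ℕ} (hμ : 2 ≤ μ) (he : e ≤ 1) (hL : L + 1 ≤ 2 * (μ + e))
    (hL2 : μ + e ≤ L) (hLc : L + 2 ≤ c) (hM : (μ + e) * (2 * μ + 1) ≤ c * L)
    (hc : μ + e + 3 ≤ c) : Nonempty (Sys (Fin c ⊕ (ZMod (2 * μ + 1) ⊕ Fin e)) c) :=
  sys_of_positions c L ((μ + e) * (2 * μ + 1)) (by omega) hLc hM (own μ e) (tgt μ e)
    (rkc μ e L) (fun _ _ _ _ h1 h2 => own_inj hμ he (by omega) hL h1 h2)
    (fun p _ => rk_lt hμ he (by omega) hL hL2 p) (circ_cov hμ he)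
    (circ_child hμ he hL hL2 hc)

end Pool.Agent.R59.CK
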