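import Mathlib

namespace Pool.Agent.R59.CK

open scoped BigOperators

/-- A point of the continuous complete graph `Γ(K_V)`, in barycentric coordinates: a point of the
segment with endpoints `a`, `b` at distance `s` from `a` has coordinate `1 - s` at `a`,
coordinate `s` at `b` and `0` elsewhere; the vertex `a` has coordinate `1` at `a`. -/
@[ext] structure Pt (V : Type) [Fintype V] where
  /-- the coordinates -/
  coord : V → ℝ
  nonneg : ∀ v, 0 ≤ coord v
  sum_one : ∑ v, coord v = 1
  seg : ∃ a b, ∀ v, v ≠ a → v ≠ b → coord v = 0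

instance (V : Type) [Fintype V] : CoeFun (Pt V) (fun _ => V → ℝ) := ⟨Pt.coord⟩

variable {V : Type} [Fintype V]

/-- `x` lies on the (closed) segment with endpoints `a`, `b` (for `a = b`: `x` is the vertex `a`). -/
def OnSeg (x : Pt V) (a b : V) : Prop := ∀ v, v ≠ a → v ≠ b → x v = 0

/-- The lengths of the candidate shortest paths between `p` and `q`:
either run inside a segment containing both points,
or leave `p` towards an endpoint `a` of a segment containing it (length `1 - p a`), go from the
vertex `a` to the vertex `b` (length `0` or `1`) and reach `q` from the endpoint `b` of a segment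
containing it (length `1 - q b`). -/
def PathLength [DecidableEq V] (p q : Pt V) (ℓ : ℝ) : Prop :=
  (∃ a b, OnSeg p a b ∧ OnSeg q a b ∧ ℓ = |p a - q a|) ∨
  (∃ a b, p a ≠ 0 ∧ q b ≠ 0 ∧ ℓ = (1 - p a) + (if a = b then 0 else 1) + (1 - q b))

/-- The distance in the continuous complete graph: the length of a shortest path. -/
noncomputable def dist [DecidableEq V] (p q : Pt V) : ℝ := sInf {ℓ | PathLength p q ℓ}

/-- The closed ball of radius `1/2` centred at `p`. -/
def ball [DecidableEq V] (p : Pt V) : Set (Pt V) := {q | dist p q ≤ 1 / 2}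

/-- `Γ(K_V)` is `(1/2, c)`-colourable: some family `𝓑` of closed balls of radius `1/2` covers
`Γ(K_V)` and has a colouring with `c` colours in which distinct balls that meet get distinct
colours. -/
def HalfColourable (V : Type) [Fintype V] [DecidableEq V] (c : ℕ) : Prop :=
  ∃ 𝓑 : Set (Set (Pt V)), (∀ B ∈ 𝓑, ∃ p, B = ball p) ∧ ⋃₀ 𝓑 = Set.univ ∧
    ∃ f : 𝓑 → Fin c, ∀ B B' : 𝓑, B ≠ B' → (B.1 ∩ B'.1).Nonempty → f B ≠ f B'

end Pool.Agent.R59.CK
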