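import Pool.Agent.R59.CK.Basic

set_option linter.unusedSectionVars false

namespace Pool.Agent.R59.CK

open scoped BigOperators

variable {V : Type} [Fintype V] [DecidableEq V]

/-- Lemma A, one-sided form. -/
lemma meet_aux {p q : Pt V} {a : V} (hp : 0 < p a) (hle : p a ≤ q a) (h : 1 ≤ p a + q a) :
    ¬ Disjoint (ball p) (ball q) := by
  rw [Set.not_disjoint_iff]
  obtain ⟨u, w, huw⟩ := p.seg
  have huw : OnSeg p u w := huw
  -- choose `b` with `p` on the segment `a b`
  have hb : ∃ b, OnSeg p a b := by
    by_cases hau : a = u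
    · subst hau; exact ⟨w, huw⟩
    · by_cases haw : a = w
      · subst haw; exact ⟨u, huw.symm⟩
      · have := huw a hau haw
        linarith
  obtain ⟨b, hb⟩ := hb
  have hq1 := q.le_one a
  have hp1 := p.le_one a
  by_cases hab : a = b
  · subst hab
    have h1 := hb.self_eq
    refine ⟨vtx a, ?_, ?_⟩
    · rw [mem_ball]
      right
      exact ⟨a, by rw [vtx_self]; linarith⟩
    · rw [mem_ball]
      right
      exact ⟨a, by rw [vtx_self]; linarith⟩
  · have e0 : 0 ≤ 1 - (q a - p a) / 2 := by linarith
    have e1 : 1 - (q a - p a) / 2 ≤ 1 := by linarith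
    refine ⟨pt a b (1 - (q a - p a) / 2) e0 e1, ?_, ?_⟩
    · rw [mem_ball]
      left
      refine ⟨a, b, hb, pt_onSeg _ _ _ _ _, ?_⟩
      rw [pt_left hab, abs_le]
      constructor <;> linarith
    · rw [mem_ball]
      right
      refine ⟨a, ?_⟩
      rw [pt_left hab]
      linarith

/-- Two balls whose centres have positive coordinates at `a` adding up to at least `1` meet. -/
lemma meet {p q : Pt V} {a : V} (hp : 0 < p a) (hq : 0 < q a) (h : 1 ≤ p a + q a) :
    ¬ Disjoint (ball p) (ball q) := by
  rcases le_total (p a) (q a) with hle | hle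
  · exact meet_aux hp hle h
  · rw [disjoint_comm]
    exact meet_aux hq hle (by linarith)

lemma meet_vtx (u v : V) : ¬ Disjoint (ball (vtx u)) (ball (vtx v)) := by
  by_cases huv : u = v
  · subst huv
    exact meet (a := u) (by rw [vtx_self]; norm_num) (by rw [vtx_self]; norm_num)
      (by rw [vtx_self]; norm_num)
  · rw [Set.not_disjoint_iff]
    refine ⟨pt u v (1 / 2) (by norm_num) (by norm_num), ?_, ?_⟩
    · rw [mem_ball]
      left
      refine ⟨u, v, vtx_onSeg _ _, pt_onSeg _ _ _ _ _, ?_⟩
      rw [pt_left huv, vtx_self]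
      norm_num [abs_le]
    · rw [mem_ball]
      left
      refine ⟨v, u, vtx_onSeg _ _, (pt_onSeg _ _ _ _ _).symm, ?_⟩
      rw [pt_right huv, vtx_self]
      norm_num [abs_le]

/-- Interior points of edges. -/
def Inner (V : Type) [Fintype V] : Type := {p : Pt V // ∀ v, p v < 1}

lemma Inner.ends (p : Inner V) :
    ∃ a b, a ≠ b ∧ OnSeg p.1 a b ∧ p.1 b ≤ p.1 a ∧ 0 < p.1 b := by
  obtain ⟨a, b, hab⟩ := p.1.seg
  have hab : OnSeg p.1 a b := hab
  have hne : a ≠ b := by
    rintro rfl
    have h1 := hab.self_eq
    have h2 := p.2 a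
    linarith
  have hs := hab.sum_eq hne
  have ha := p.2 a
  have hb := p.2 b
  rcases le_total (p.1 b) (p.1 a) with h | h
  · exact ⟨a, b, hne, hab, h, by linarith⟩
  · exact ⟨b, a, hne.symm, hab.symm, h, by linarith⟩

lemma eta {ι : Type} (F : Finset ι) (g : ι → ℝ) (h : ∀ x ∈ F, g x < 1) :
    ∃ η : ℝ, 0 < η ∧ η < 1 / 2 ∧ ∀ x ∈ F, g x < 1 - η := by
  classical
  induction F using Finset.induction_on with
  | empty => exact ⟨1 / 4, by norm_num, by norm_num, by simp⟩
  | insert a s ha ih =>
    obtain ⟨η, h1, h2, h3⟩ := ih (fun x hx => h x (Finset.mem_insert_of_mem hx))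
    have h4 := h a (Finset.mem_insert_self _ _)
    refine ⟨min η ((1 - g a) / 2), lt_min h1 (by linarith), lt_of_le_of_lt (min_le_left _ _) h2, ?_⟩
    intro x hx
    rcases Finset.mem_insert.1 hx with rfl | hx
    · have := min_le_right η ((1 - g x) / 2)
      linarith
    · have := min_le_left η ((1 - g a) / 2)
      have := h3 x hx
      linarith

theorem lower_count {c : ℕ} (h : Good V c) (hn : 2 ≤ Fintype.card V) :
    ∃ s k X : ℕ, s ≤ k ∧ k ≤ c ∧
      Fintype.card V * Fintype.card V - Fintype.card V ≤ 2 * X + (s * s - s) ∧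
      X + k ≤ c * (Fintype.card V - 1) := by
  classical
  obtain ⟨P, hd, hcov⟩ := h
  have hsum : ∀ i, ∀ p ∈ P i, ∀ q ∈ P i, p ≠ q → ∀ a, 0 < p a → 0 < q a → p a + q a < 1 := by
    intro i p hp q hq hne a h1 h2
    by_contra hcon
    push Not at hcon
    exact meet h1 h2 hcon (hd i p hp q hq hne)
  have hvtx : ∀ i u v, vtx u ∈ P i → vtx v ∈ P i → u = v := by
    intro i u v hu hv
    by_contra hne
    have : vtx u ≠ vtx v := by
      intro h
      have h1 : (vtx u) u = (vtx v) u := by rw [h]
      rw [vtx_self, vtx_other hne] at h1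
      norm_num at h1
    exact meet_vtx u v (hd i _ hu _ hv this)
  choose M m hMm hseg hle hpos using (Inner.ends (V := V))
  have hhalf : ∀ p : Inner V, 1 / 2 ≤ p.1 (M p) := by
    intro p
    have h1 := (hseg p).sum_eq (hMm p)
    have h2 := hle p
    linarith
  have hMinj : ∀ i (p q : Inner V), p.1 ∈ P i → q.1 ∈ P i → M p = M q → p = q := by
    intro i p q hp hq hM
    by_contra hne
    have hne' : p.1 ≠ q.1 := fun h => hne (Subtype.ext h)
    have h1 := hhalf p
    have h2 := hhalf q
    rw [← hM] at h2
    have := hsum i _ hp _ hq hne' (M p) (by linarith) (by linarith)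
    linarith
  have hfin : ∀ i, {p : Inner V | p.1 ∈ P i}.Finite := by
    intro i
    apply Set.Finite.of_injOn (f := M) (t := Set.univ) (fun _ _ => Set.mem_univ _) ?_
      Set.finite_univ
    intro p hp q hq hM
    exact hMinj i p q hp hq hM
  let I : Fin c → Finset (Inner V) := fun i => (hfin i).toFinset
  have hI : ∀ i p, p ∈ I i ↔ p.1 ∈ P i := by
    intro i p
    simp [I]
  let K : Finset (Fin c) := Finset.univ.filter (fun i => ∃ s, vtx s ∈ P i)
  let S : Finset V := Finset.univ.filter (fun s => ∃ i, vtx s ∈ P i)
  have hSK : S.card ≤ K.card := by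
    have hch : ∀ s : V, ∃ i : Fin c, s ∈ S → vtx s ∈ P i := by
      intro s
      by_cases hs : s ∈ S
      · obtain ⟨i, hi⟩ := (Finset.mem_filter.1 hs).2
        exact ⟨i, fun _ => hi⟩
      · obtain ⟨i, -⟩ := hcov (vtx s)
        exact ⟨i, fun h => absurd h hs⟩
    choose col hcol using hch
    apply Finset.card_le_card_of_injOn col
    · intro s hs
      exact Finset.mem_filter.2 ⟨Finset.mem_univ _, s, hcol s hs⟩
    · intro s hs t ht hst
      have h1 := hcol s hs
      have h2 := hcol t ht
      rw [← hst] at h2
      exact hvtx _ _ _ h1 h2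
  have hKc : K.card ≤ c := by
    have := Finset.card_le_univ K
    simpa using this
  -- bound for a colour class
  have hclass : ∀ i, (I i).card + (if i ∈ K then 1 else 0) ≤ Fintype.card V - 1 := by
    intro i
    by_cases hIe : (I i).Nonempty
    · obtain ⟨p, hpI, hpmin⟩ := Finset.exists_min_image (I i) (fun p => p.1 (M p)) hIe
      have hp := (hI i p).1 hpI
      have hnot : m p ∉ (I i).image M := by
        intro hcon
        obtain ⟨q, hqI, hq⟩ := Finset.mem_image.1 hcon
        have hqP := (hI i q).1 hqI
        have hne : p.1 ≠ q.1 := by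
          intro h
          have : p = q := Subtype.ext h
          subst this
          exact hMm p hq
        have h1 := hpmin q hqI
        have h2 := (hseg p).sum_eq (hMm p)
        have h3 := hhalf q
        rw [hq] at h1 h3
        have := hsum i _ hp _ hqP hne (m p) (hpos p) (by linarith)
        linarith
      have hcard : ((I i).image M).card = (I i).card := by
        apply Finset.card_image_of_injOn
        intro p hp q hq hM
        exact hMinj i p q ((hI i p).1 hp) ((hI i q).1 hq) hM
      by_cases hiK : i ∈ K
      · rw [if_pos hiK]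
        obtain ⟨s, hs⟩ := (Finset.mem_filter.1 hiK).2
        have hs0 : ∀ q : Inner V, q.1 ∈ P i → q.1 s = 0 := by
          intro q hq
          by_contra hcon
          have hq0 : 0 < q.1 s := lt_of_le_of_ne (q.1.nonneg s) (Ne.symm hcon)
          have hne : q.1 ≠ vtx s := by
            intro h
            have := q.2 s
            rw [h, vtx_self] at this
            exact lt_irrefl _ this
          have := hsum i _ hq _ hs hne s hq0 (by rw [vtx_self]; norm_num)
          rw [vtx_self] at this
          linarith
        have h1 : s ∉ (I i).image M := by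
          intro hcon
          obtain ⟨q, hqI, hq⟩ := Finset.mem_image.1 hcon
          have h1 := hs0 q ((hI i q).1 hqI)
          have h2 := hhalf q
          rw [hq] at h2
          linarith
        have h2 : m p ≠ s := by
          intro hcon
          have h1 := hs0 p hp
          have h2 := hpos p
          rw [hcon] at h2
          linarith
        have h3 : (insert (m p) (insert s ((I i).image M))).card = (I i).card + 2 := by
          rw [Finset.card_insert_of_notMem, Finset.card_insert_of_notMem h1, hcard]
          rw [Finset.mem_insert, not_or]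
          exact ⟨h2, hnot⟩
        have h4 := Finset.card_le_univ (insert (m p) (insert s ((I i).image M)))
        omega
      · rw [if_neg hiK]
        have h3 : (insert (m p) ((I i).image M)).card = (I i).card + 1 := by
          rw [Finset.card_insert_of_notMem hnot, hcard]
        have h4 := Finset.card_le_univ (insert (m p) ((I i).image M))
        omega
    · rw [Finset.not_nonempty_iff_eq_empty] at hIe
      rw [hIe, Finset.card_empty]
      split_ifs <;> omega
  -- covering of the edges not inside `S`
  have hedge : ∀ u v, u ≠ v → v ∉ S → ∃ i, ∃ p ∈ I i,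
      (M p = u ∧ m p = v) ∨ (M p = v ∧ m p = u) := by
    intro u v huv hvS
    by_contra hcon
    push Not at hcon
    obtain ⟨η, h1, h2, h3⟩ := eta (Finset.univ.biUnion I) (fun p => p.1 v) (fun p _ => p.2 v)
    have hPv : ∀ i, ∀ p ∈ P i, p v < 1 - η := by
      intro i p hp
      by_cases hint : ∀ w, p w < 1
      · exact h3 ⟨p, hint⟩ (Finset.mem_biUnion.2 ⟨i, Finset.mem_univ _, (hI i _).2 hp⟩)
      · push Not at hint
        obtain ⟨w, hw⟩ := hint
        have hw1 : p w = 1 := le_antisymm (p.le_one w) hw
        have hpw := eq_vtx hw1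
        have hwv : v ≠ w := by
          rintro rfl
          rw [hpw] at hp
          exact hvS (Finset.mem_filter.2 ⟨Finset.mem_univ _, i, hp⟩)
        rw [hpw, vtx_other hwv]
        linarith
    obtain ⟨i, p, hp, hr⟩ := hcov (pt v u (1 / 2 + η) (by linarith) (by linarith))
    have hv := pt_left huv.symm (1 / 2 + η) (by linarith) (by linarith)
    have hu := pt_right huv.symm (1 / 2 + η) (by linarith) (by linarith)
    have hsg := pt_onSeg v u (1 / 2 + η) (by linarith) (by linarith)
    have hpv := hPv i p hp
    rw [mem_ball] at hr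
    rcases hr with ⟨a, b, h4, h5, h6⟩ | ⟨a, h4⟩
    · -- same segment
      have hva : v = a ∨ v = b := by
        by_contra hcon
        push Not at hcon
        have := h5 v hcon.1 hcon.2
        rw [hv] at this
        linarith
      have hua : u = a ∨ u = b := by
        by_contra hcon
        push Not at hcon
        have := h5 u hcon.1 hcon.2
        rw [hu] at this
        linarith
      have hpseg : OnSeg p u v := by
        rcases hva with e1 | e1 <;> rcases hua with e2 | e2
        · exact absurd (e2.trans e1.symm) huv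
        · rw [e1, e2]; exact h4.symm
        · rw [e1, e2]; exact h4
        · exact absurd (e2.trans e1.symm) huv
      have hpsum := hpseg.sum_eq huv
      have hpu : p u < 1 := by
        by_contra hcon
        push Not at hcon
        have h7 := p.nonneg v
        have h8 : p v = 0 := by linarith
        have h9 : p u = 1 := by linarith
        rcases hva with e1 | e1 <;> rcases hua with e2 | e2
        · exact absurd (e2.trans e1.symm) huv
        · subst e1
          rw [hv, h8] at h6
          have := (abs_le.1 h6).1
          linarith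
        · subst e2
          rw [hu, h9] at h6
          have := (abs_le.1 h6).2
          linarith
        · exact absurd (e2.trans e1.symm) huv
      have hint : ∀ w, p w < 1 := by
        intro w
        by_cases hwu : w = u
        · rw [hwu]; exact hpu
        · by_cases hwv : w = v
          · rw [hwv]; linarith
          · rw [hpseg w hwu hwv]; norm_num
      have hmem := (hI i ⟨p, hint⟩).2 hp
      have hc := hcon i ⟨p, hint⟩ hmem
      have hM1 : M ⟨p, hint⟩ = u ∨ M ⟨p, hint⟩ = v := by
        by_contra hcon'
        push Not at hcon'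
        have h7 := hpseg _ hcon'.1 hcon'.2
        have h8 := hhalf ⟨p, hint⟩
        change 1 / 2 ≤ p (M ⟨p, hint⟩) at h8
        linarith
      have hm1 : m ⟨p, hint⟩ = u ∨ m ⟨p, hint⟩ = v := by
        by_contra hcon'
        push Not at hcon'
        have h7 := hpseg _ hcon'.1 hcon'.2
        have h8 := hpos ⟨p, hint⟩
        change 0 < p (m ⟨p, hint⟩) at h8
        linarith
      have hMm1 := hMm ⟨p, hint⟩
      rcases hM1 with e1 | e1 <;> rcases hm1 with e2 | e2
      · exact hMm1 (e1.trans e2.symm)
      · exact hc.1 e1 e2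
      · exact hc.2 e1 e2
      · exact hMm1 (e1.trans e2.symm)
    · by_cases hav : a = v
      · subst hav
        rw [hv] at h4
        linarith
      · have hpa := p.le_one a
        by_cases hau : a = u
        · subst hau
          rw [hu] at h4
          linarith
        · rw [hsg a hav hau] at h4
          linarith
  refine ⟨S.card, K.card, ∑ i, (I i).card, hSK, hKc, ?_, ?_⟩
  · have hsub : (Finset.univ : Finset V).offDiag ⊆
        (Finset.univ.biUnion (fun i : Fin c => (I i).image (fun p => (M p, m p)) ∪
          (I i).image (fun p => (m p, M p)))) ∪ S.offDiag := by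
      rintro ⟨u, v⟩ huv
      have hne : u ≠ v := (Finset.mem_offDiag.1 huv).2.2
      by_cases hS : u ∈ S ∧ v ∈ S
      · exact Finset.mem_union_right _ (Finset.mem_offDiag.2 ⟨hS.1, hS.2, hne⟩)
      · apply Finset.mem_union_left
        rw [Finset.mem_biUnion]
        have : ∃ i, ∃ p ∈ I i, (M p = u ∧ m p = v) ∨ (M p = v ∧ m p = u) := by
          by_cases hv : v ∈ S
          · have hu : u ∉ S := fun hu => hS ⟨hu, hv⟩
            obtain ⟨i, p, hp, h | h⟩ := hedge v u hne.symm hu
            · exact ⟨i, p, hp, Or.inr h⟩
            · exact ⟨i, p, hp, Or.inl h⟩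
          · exact hedge u v hne hv
        obtain ⟨i, p, hp, ⟨h1, h2⟩ | ⟨h1, h2⟩⟩ := this
        · exact ⟨i, Finset.mem_univ _, Finset.mem_union_left _
            (Finset.mem_image.2 ⟨p, hp, by rw [h1, h2]⟩)⟩
        · exact ⟨i, Finset.mem_univ _, Finset.mem_union_right _
            (Finset.mem_image.2 ⟨p, hp, by rw [h1, h2]⟩)⟩
    have h1 := Finset.card_le_card hsub
    rw [Finset.offDiag_card, Finset.card_univ] at h1
    have h2 := Finset.card_union_le (Finset.univ.biUnion (fun i : Fin c =>
      (I i).image (fun p => (M p, m p)) ∪ (I i).image (fun p => (m p, M p)))) S.offDiag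
    rw [Finset.offDiag_card] at h2
    have h3 : (Finset.univ.biUnion (fun i : Fin c =>
      (I i).image (fun p => (M p, m p)) ∪ (I i).image (fun p => (m p, M p)))).card ≤
        ∑ i, 2 * (I i).card := by
      refine Finset.card_biUnion_le.trans (Finset.sum_le_sum ?_)
      intro i _
      have a1 := Finset.card_union_le ((I i).image (fun p => (M p, m p)))
        ((I i).image (fun p => (m p, M p)))
      have a2 := Finset.card_image_le (s := I i) (f := fun p => (M p, m p))
      have a3 := Finset.card_image_le (s := I i) (f := fun p => (m p, M p))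
      omega
    rw [← Finset.mul_sum] at h3
    omega
  · have h1 : ∑ i : Fin c, ((I i).card + (if i ∈ K then 1 else 0)) ≤
        ∑ _i : Fin c, (Fintype.card V - 1) := Finset.sum_le_sum (fun i _ => hclass i)
    rw [Finset.sum_add_distrib, Finset.sum_const, Finset.card_univ, Fintype.card_fin,
      smul_eq_mul, Finset.sum_ite_mem, Finset.univ_inter, Finset.sum_const, smul_eq_mul,
      mul_one] at h1
    exact h1

theorem lower {c : ℕ} (h : Good V c) (hc : 2 * c < Fintype.card V) :
    1 ≤ c ∧ Fintype.card V * (Fintype.card V - 1) + 5 * c ≤ c ^ 2 + 2 * Fintype.card V * c := by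
  have hc1 : 1 ≤ c := by
    by_contra hcon
    have hc0 : c = 0 := by omega
    subst hc0
    obtain ⟨P, -, hcov⟩ := h
    have hne : Nonempty V := Fintype.card_pos_iff.1 (by omega)
    obtain ⟨v⟩ := hne
    obtain ⟨i, -⟩ := hcov (vtx v)
    exact i.elim0
  refine ⟨hc1, ?_⟩
  obtain ⟨s, k, X, h1, h2, h3, h4⟩ := lower_count h (by omega)
  set n := Fintype.card V with hn
  clear_value n
  obtain ⟨n, rfl⟩ : ∃ n', n = n' + 1 := ⟨n - 1, by omega⟩
  simp only [Nat.add_sub_cancel] at *
  have e1 : (n + 1) * (n + 1) - (n + 1) = (n + 1) * n := by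
    rw [Nat.mul_succ, Nat.add_sub_cancel]
  rw [e1] at h3
  have hs4 : 4 ≤ s := by
    by_contra hcon
    have : s ≤ 3 := by omega
    have h5 : s * s - s ≤ 2 * s := by
      interval_cases s <;> norm_num
    have h6 : (n + 1) * n ≤ 2 * (c * n) - 2 * k + 2 * s := by omega
    have h7 : (n + 1) * n ≤ 2 * (c * n) := by
      have : 2 * k ≤ 2 * (c * n) := by omega
      omega
    have h8 : 2 * c ≤ n := by omega
    have h9 : 2 * c * n ≤ n * n := Nat.mul_le_mul_right n h8
    have h10 : 0 < n := by omega
    nlinarith
  obtain ⟨s', rfl⟩ : ∃ s', s = s' + 1 := ⟨s - 1, by omega⟩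
  have e2 : (s' + 1) * (s' + 1) - (s' + 1) = (s' + 1) * s' := by
    rw [Nat.mul_succ, Nat.add_sub_cancel]
  rw [e2] at h3
  have hsc : s' + 1 ≤ c := h1.trans h2
  zify at *
  nlinarith

end Pool.Agent.R59.CK
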