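import Pool.Agent.R59.CK.Sys

set_option linter.unusedSectionVars false

namespace Pool.Agent.R59.CK

open scoped BigOperators

lemma modc {x k c : ℕ} (hx : x < c) (hk : k ≤ c) :
    (x + k) % c = if x + k < c then x + k else x + k - c := by
  split_ifs with h
  · exact Nat.mod_eq_of_lt h
  · rw [Nat.mod_eq_sub_mod (by omega), Nat.mod_eq_of_lt (by omega)]

lemma mod_cancel {x y k c : ℕ} (hx : x < c) (hy : y < c) (h : (x + k) % c = (y + k) % c) :
    x = y := by
  have h1 : x ≡ y [MOD c] := Nat.ModEq.add_right_cancel' k h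
  unfold Nat.ModEq at h1
  rwa [Nat.mod_eq_of_lt hx, Nat.mod_eq_of_lt hy] at h1

lemma mod_cancel' {x y k c : ℕ} (hx : x < c) (hy : y < c) (h : (k + x) % c = (k + y) % c) :
    x = y := by
  have h1 : x ≡ y [MOD c] := Nat.ModEq.add_left_cancel' k h
  unfold Nat.ModEq at h1
  rwa [Nat.mod_eq_of_lt hx, Nat.mod_eq_of_lt hy] at h1

/-- The arcs of the system built from a list of positions. -/
def arcs {T : Type} (c L M : ℕ) (own tgt : ℕ → T) (i : Fin c) : Fin c ⊕ T → Fin c ⊕ T → Prop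
  | Sum.inr v, Sum.inr w => ∃ p, p < M ∧ p / L = i.1 ∧ own p = v ∧ tgt p = w
  | Sum.inr v, Sum.inl j => (j : ℕ) = (i.1 + 1) % c ∧ ¬ ∃ p, p < M ∧ p / L = i.1 ∧ own p = v
  | Sum.inl j, Sum.inr v => ∃ p, p < M ∧ own p = v ∧ (j : ℕ) = (p / L + 1) % c ∧
      i.1 = (p / L + (2 + p % L)) % c
  | Sum.inl _, Sum.inl _ => False

/-- The ranks of the system built from a list of positions. -/
def rks {T : Type} [Fintype T] (c : ℕ) (rk : ℕ → T → ℕ) (i : Fin c) : Fin c ⊕ T → ℕ
  | Sum.inl j => if (j : ℕ) = (i.1 + 1) % c then 0 else 2 + ∑ v, rk i.1 v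
  | Sum.inr v => 1 + rk i.1 v

theorem sys_of_positions {T : Type} [Fintype T] (c L M : ℕ) (hL : 0 < L) (hLc : L + 2 ≤ c)
    (hM : M ≤ c * L) (own tgt : ℕ → T) (rk : ℕ → T → ℕ)
    (inj : ∀ p p', p < M → p' < M → p / L = p' / L → own p = own p' → p = p')
    (hrk : ∀ p, p < M → rk (p / L) (tgt p) < rk (p / L) (own p))
    (cov : ∀ a b : T, a ≠ b → ∃ p, p < M ∧ ((own p = a ∧ tgt p = b) ∨ (own p = b ∧ tgt p = a)))
    (child : ∀ v : T, ∃ i, i < c ∧ (∀ p, p < M → p / L = i → tgt p ≠ v) ∧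
      (∀ p, p < M → own p = v → (p / L + (2 + p % L)) % c ≠ i)) :
    Nonempty (Sys (Fin c ⊕ T) c) := by
  classical
  have hdiv : ∀ p, p < M → p / L < c := by
    intro p hp
    apply Nat.div_lt_of_lt_mul
    rw [Nat.mul_comm]
    omega
  have hmod : ∀ p, p % L < L := fun p => Nat.mod_lt _ hL
  have hpos : ∀ p p', p / L = p' / L → p % L = p' % L → p = p' := by
    intro p p' h1 h2
    rw [← Nat.div_add_mod p L, ← Nat.div_add_mod p' L, h1, h2]
  refine ⟨⟨arcs c L M own tgt, ?_, rks c rk, ?_, fun i x => x = Sum.inl i, ?_, ?_, ?_, ?_, ?_⟩⟩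
  · -- functionality
    rintro i (j | v) (j' | w) (j'' | w') h1 h2
    · exact h1.elim
    · exact h1.elim
    · exact h2.elim
    · obtain ⟨p, hp, ho, hj, hi⟩ := h1
      obtain ⟨p', hp', ho', hj', hi'⟩ := h2
      have a1 := hdiv p hp
      have a2 := hdiv p' hp'
      have a3 := hmod p
      have a4 := hmod p'
      have e1 : p / L = p' / L := mod_cancel a1 a2 (hj.symm.trans hj')
      have e2 : p % L = p' % L := by
        rw [e1] at hi
        have := mod_cancel' (by omega) (by omega) (hi.symm.trans hi')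
        omega
      have := hpos p p' e1 e2
      subst this
      rw [← ho, ← ho']
    · have e1 := h1.1
      have e2 := h2.1
      have : j' = j'' := Fin.ext (by omega)
      rw [this]
    · exfalso
      obtain ⟨p, hp, h3, h4, -⟩ := h2
      exact h1.2 ⟨p, hp, h3, h4⟩
    · exfalso
      obtain ⟨p, hp, h3, h4, -⟩ := h1
      exact h2.2 ⟨p, hp, h3, h4⟩
    · obtain ⟨p, hp, hi, ho, ht⟩ := h1
      obtain ⟨p', hp', hi', ho', ht'⟩ := h2
      have := inj p p' hp hp' (hi.trans hi'.symm) (ho.trans ho'.symm)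
      subst this
      rw [← ht, ← ht']
  · -- ranks
    rintro i (j | v) (j' | w) h
    · exact h.elim
    · obtain ⟨p, hp, ho, hj, hi⟩ := h
      have a1 := hdiv p hp
      have a3 := hmod p
      have hne : (j : ℕ) ≠ (i.1 + 1) % c := by
        intro hcon
        rw [modc a1 (by omega)] at hj hi
        rw [modc i.2 (by omega)] at hcon
        split_ifs at hj hi hcon <;> omega
      have hle : rk i.1 w ≤ ∑ v, rk i.1 v :=
        Finset.single_le_sum (f := fun v => rk i.1 v) (fun _ _ => Nat.zero_le _) (Finset.mem_univ w)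
      simp only [rks, if_neg hne]
      omega
    · simp only [rks, if_pos h.1]
      omega
    · obtain ⟨p, hp, hi, ho, ht⟩ := h
      have := hrk p hp
      rw [hi, ho, ht] at this
      simp only [rks]
      omega
  · rintro i s s' rfl rfl
    rfl
  · rintro i s (j | w) rfl h
    · exact h.elim
    · obtain ⟨p, hp, ho, hj, hi⟩ := h
      have a1 := hdiv p hp
      have a3 := hmod p
      rw [modc a1 (by omega)] at hj hi
      split_ifs at hj hi <;> omega
  · rintro i s (j | w) rfl h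
    · exact h.elim
    · have := h.1
      have h2 := i.2
      rw [modc i.2 (by omega)] at this
      split_ifs at this <;> omega
  · -- cover
    have key : ∀ (j : Fin c) (v : T), ∃ i, arcs c L M own tgt i (Sum.inl j) (Sum.inr v) ∨
        arcs c L M own tgt i (Sum.inr v) (Sum.inl j) := by
      intro j v
      have hj := j.2
      have hi0 : (j.1 + (c - 1)) % c < c := Nat.mod_lt _ (by omega)
      have hi1 : ((j.1 + (c - 1)) % c + 1) % c = j.1 := by
        rw [modc hi0 (by omega), modc j.2 (by omega)]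
        split_ifs <;> omega
      by_cases h : ∃ p, p < M ∧ p / L = (j.1 + (c - 1)) % c ∧ own p = v
      · obtain ⟨p, hp, h1, h2⟩ := h
        refine ⟨⟨(p / L + (2 + p % L)) % c, Nat.mod_lt _ (by omega)⟩, Or.inl ?_⟩
        exact ⟨p, hp, h2, by rw [h1, hi1], rfl⟩
      · exact ⟨⟨(j.1 + (c - 1)) % c, hi0⟩, Or.inr ⟨hi1.symm, h⟩⟩
    rintro (j | v) (j' | w) hne
    · exact Or.inr ⟨⟨j, rfl⟩, ⟨j', rfl⟩⟩
    · exact Or.inl (key j w)
    · obtain ⟨i, h⟩ := key j' v
      exact Or.inl ⟨i, h.symm⟩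
    · have hne' : v ≠ w := fun h => hne (by rw [h])
      obtain ⟨p, hp, h | h⟩ := cov v w hne'
      · exact Or.inl ⟨⟨p / L, hdiv p hp⟩, Or.inl ⟨p, hp, rfl, h.1, h.2⟩⟩
      · exact Or.inl ⟨⟨p / L, hdiv p hp⟩, Or.inr ⟨p, hp, rfl, h.1, h.2⟩⟩
  · rintro (j | v)
    · exact Or.inl ⟨j, rfl⟩
    · right
      obtain ⟨i, hi, h1, h2⟩ := child v
      refine ⟨⟨i, hi⟩, ?_, ?_⟩
      · by_cases h : ∃ p, p < M ∧ p / L = i ∧ own p = v
        · obtain ⟨p, hp, h3, h4⟩ := h
          exact ⟨Sum.inr (tgt p), p, hp, h3, h4, rfl⟩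
        · exact ⟨Sum.inl ⟨(i + 1) % c, Nat.mod_lt _ (by omega)⟩, rfl, h⟩
      · rintro (j | u) h
        · obtain ⟨p, hp, ho, -, hi'⟩ := h
          exact h2 p hp ho hi'.symm
        · obtain ⟨p, hp, hi', ho, ht⟩ := h
          exact h1 p hp hi' ht

end Pool.Agent.R59.CK
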