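import Pool.Agent.R59.CK.Sys

set_option maxRecDepth 100000

namespace Pool.Agent.R59.CK

/-- A system given by tables. -/
def ofTable {n c : ℕ} (par : Fin c → Fin n → Option (Fin n)) (rk : Fin c → Fin n → ℕ)
    (cn : Fin c → Option (Fin n))
    (h1 : ∀ i v w, par i v = some w → rk i w < rk i v)
    (h2 : ∀ i s, cn i = some s → par i s = none)
    (h3 : ∀ i s, cn i = some s → ∀ w, par i w ≠ some s)
    (h4 : ∀ a b, a ≠ b → (∃ i, par i a = some b ∨ par i b = some a) ∨
      ((∃ i, cn i = some a) ∧ ∃ i, cn i = some b))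
    (h5 : ∀ v, (∃ i, cn i = some v) ∨ ∃ i, (∃ w, par i v = some w) ∧ ∀ u, par i u ≠ some v) :
    Sys (Fin n) c where
  A := fun i v w => par i v = some w
  fn := fun i v w w' h h' => Option.some_injective _ (h.symm.trans h')
  rk := rk
  hrk := h1
  cen := fun i v => cn i = some v
  hcen1 := fun i s s' h h' => Option.some_injective _ (h.symm.trans h')
  hcen2 := fun i s w h h' => by
    rw [h2 i s h] at h'
    exact absurd h' (by simp)
  hcen3 := fun i s w h h' => h3 i s h w h'
  cov := h4
  free := h5

theorem small3 : Nonempty (Sys (Fin 3) 2) :=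
  ⟨ofTable
    (par := ![![none, none, some 1], ![none, none, some 0]])
    (rk := ![![0, 0, 1], ![0, 0, 1]])
    (cn := ![some 0, some 1])
    (by decide) (by decide) (by decide) (by decide) (by decide)⟩

theorem small4 : Nonempty (Sys (Fin 4) 2) :=
  ⟨ofTable
    (par := ![![none, some 0, some 0, some 2], ![some 3, none, some 1, some 1]])
    (rk := ![![0, 1, 1, 2], ![2, 0, 1, 1]])
    (cn := ![none, none])
    (by decide) (by decide) (by decide) (by decide) (by decide)⟩

theorem small5 : Nonempty (Sys (Fin 5) 3) :=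
  ⟨ofTable
    (par := ![![none, some 0, some 0, some 0, some 3], ![some 4, none, some 1, some 1, some 1], ![none, none, none, some 2, some 2]])
    (rk := ![![0, 1, 1, 1, 2], ![2, 0, 1, 1, 1], ![0, 0, 0, 1, 1]])
    (cn := ![none, none, none])
    (by decide) (by decide) (by decide) (by decide) (by decide)⟩

theorem small6 : Nonempty (Sys (Fin 6) 3) :=
  ⟨ofTable
    (par := ![![none, some 0, some 0, some 0, some 3, some 3], ![some 4, none, some 1, some 1, some 1, some 4], ![some 5, some 5, none, some 2, some 2, some 2]])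
    (rk := ![![0, 1, 1, 1, 2, 2], ![2, 0, 1, 1, 1, 2], ![2, 2, 0, 1, 1, 1]])
    (cn := ![none, none, none])
    (by decide) (by decide) (by decide) (by decide) (by decide)⟩

theorem small7 : Nonempty (Sys (Fin 7) 4) :=
  ⟨ofTable
    (par := ![![none, some 0, some 0, some 0, some 0, some 4, some 4], ![some 5, none, some 1, some 1, some 1, some 1, some 5], ![some 6, some 6, none, some 2, some 2, some 2, some 2], ![none, none, none, none, some 3, some 3, some 3]])
    (rk := ![![0, 1, 1, 1, 1, 2, 2], ![2, 0, 1, 1, 1, 1, 2], ![2, 2, 0, 1, 1, 1, 1], ![0, 0, 0, 0, 1, 1, 1]])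
    (cn := ![none, none, none, none])
    (by decide) (by decide) (by decide) (by decide) (by decide)⟩

theorem small8 : Nonempty (Sys (Fin 8) 4) :=
  ⟨ofTable
    (par := ![![none, some 0, some 0, some 0, some 0, some 4, some 4, some 4], ![some 5, none, some 1, some 1, some 1, some 1, some 5, some 5], ![some 6, some 6, none, some 2, some 2, some 2, some 2, some 6], ![some 7, some 7, some 7, none, some 3, some 3, some 3, some 3]])
    (rk := ![![0, 1, 1, 1, 1, 2, 2, 2], ![2, 0, 1, 1, 1, 1, 2, 2], ![2, 2, 0, 1, 1, 1, 1, 2], ![2, 2, 2, 0, 1, 1, 1, 1]])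
    (cn := ![none, none, none, none])
    (by decide) (by decide) (by decide) (by decide) (by decide)⟩

theorem small9 : Nonempty (Sys (Fin 9) 5) :=
  ⟨ofTable
    (par := ![![none, some 0, some 0, some 0, some 0, some 0, some 5, some 5, some 5], ![some 6, none, some 1, some 1, some 1, some 1, some 1, some 6, some 6], ![some 7, some 7, none, some 2, some 2, some 2, some 2, some 2, some 7], ![some 8, some 8, some 8, none, some 3, some 3, some 3, some 3, some 3], ![none, none, none, none, none, some 4, some 4, some 4, some 4]])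
    (rk := ![![0, 1, 1, 1, 1, 1, 2, 2, 2], ![2, 0, 1, 1, 1, 1, 1, 2, 2], ![2, 2, 0, 1, 1, 1, 1, 1, 2], ![2, 2, 2, 0, 1, 1, 1, 1, 1], ![0, 0, 0, 0, 0, 1, 1, 1, 1]])
    (cn := ![none, none, none, none, none])
    (by decide) (by decide) (by decide) (by decide) (by decide)⟩

theorem small11 : Nonempty (Sys (Fin 11) 5) :=
  ⟨ofTable
    (par := ![![none, none, some 9, some 6, some 8, some 1, some 5, some 5, some 1, some 1, some 5], ![some 5, none, none, some 5, some 7, some 2, some 2, some 10, some 7, some 7, some 2], ![some 9, some 7, none, none, some 6, some 9, some 9, some 3, some 3, some 10, some 3], ![some 8, some 6, some 8, none, none, some 4, some 10, some 6, some 6, some 4, some 4], ![none, some 10, some 7, some 9, none, some 8, some 0, some 0, some 10, some 8, some 0]])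
    (rk := ![![0, 0, 2, 3, 2, 1, 2, 2, 1, 1, 2], ![2, 0, 0, 2, 3, 1, 1, 2, 3, 3, 1], ![3, 2, 0, 0, 4, 3, 3, 1, 1, 2, 1], ![4, 3, 4, 0, 0, 1, 2, 3, 3, 1, 1], ![0, 2, 2, 4, 0, 3, 1, 1, 2, 3, 1]])
    (cn := ![some 0, some 1, some 2, some 3, some 4])
    (by decide) (by decide) (by decide) (by decide) (by decide)⟩

end Pool.Agent.R59.CK
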