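import Pool.Agent.R59.CK.Basic

set_option linter.unusedSectionVars false

namespace Pool.Agent.R59.CK

open scoped BigOperators

variable {V : Type} [Fintype V] [DecidableEq V]

/-- Combinatorial data producing a cover by half balls. -/
structure Sys (V : Type) (c : ℕ) where
  /-- arcs of colour `i`: `A i v w` stands for a centre on the edge `v w`, nearer to `v` -/
  A : Fin c → V → V → Prop
  fn : ∀ i v w w', A i v w → A i v w' → w = w'
  /-- rank in the rooted forest of colour `i` -/
  rk : Fin c → V → ℕ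
  hrk : ∀ i v w, A i v w → rk i w < rk i v
  /-- the vertices that are centres -/
  cen : Fin c → V → Prop
  hcen1 : ∀ i s s', cen i s → cen i s' → s = s'
  hcen2 : ∀ i s w, cen i s → ¬ A i s w
  hcen3 : ∀ i s w, cen i s → ¬ A i w s
  cov : ∀ a b, a ≠ b → (∃ i, A i a b ∨ A i b a) ∨ ((∃ i, cen i a) ∧ ∃ i, cen i b)
  free : ∀ v, (∃ i, cen i v) ∨ ∃ i, (∃ w, A i v w) ∧ ∀ u, ¬ A i u v

/-- Transport of a system along an equivalence. -/
def Sys.map {V W : Type} {c : ℕ} (S : Sys V c) (e : V ≃ W) : Sys W c where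
  A := fun i v w => S.A i (e.symm v) (e.symm w)
  fn := fun i v w w' h h' => e.symm.injective (S.fn i _ _ _ h h')
  rk := fun i v => S.rk i (e.symm v)
  hrk := fun i v w h => S.hrk i _ _ h
  cen := fun i v => S.cen i (e.symm v)
  hcen1 := fun i s s' h h' => e.symm.injective (S.hcen1 i _ _ h h')
  hcen2 := fun i s w h => S.hcen2 i _ _ h
  hcen3 := fun i s w h => S.hcen3 i _ _ h
  cov := fun a b hab => S.cov _ _ (fun h => hab (e.symm.injective h))
  free := fun v => by
    rcases S.free (e.symm v) with h | ⟨i, ⟨w, hw⟩, h⟩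
    · exact Or.inl h
    · refine Or.inr ⟨i, ⟨e w, by simpa using hw⟩, fun u => h _⟩

lemma mem_ball_vtx {s : V} {r : Pt V} (h : r ∈ ball (vtx s)) : 1 / 2 ≤ r s := by
  rw [mem_ball] at h
  rcases h with ⟨a, b, h1, h2, h3⟩ | ⟨a, h⟩
  · by_cases hsa : s = a
    · subst hsa
      rw [vtx_self] at h3
      have := (abs_le.1 h3).2
      linarith
    · by_cases hsb : s = b
      · subst hsb
        have h4 := h2.sum_eq (Ne.symm hsa)
        rw [vtx_other (Ne.symm hsa)] at h3
        have := (abs_le.1 h3).1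
        linarith
      · have := h1 s hsa hsb
        rw [vtx_self] at this
        norm_num at this
  · by_cases has : a = s
    · subst has
      rw [vtx_self] at h
      linarith
    · rw [vtx_other has] at h
      have := r.le_one a
      linarith

lemma vtx_cover {s : V} {r : Pt V} (h : 1 / 2 ≤ r s) : r ∈ ball (vtx s) := by
  rw [mem_ball]
  right
  exact ⟨s, by rw [vtx_self]; linarith⟩

lemma mem_ball_pt {v w : V} (hvw : v ≠ w) {δ : ℝ} (hδ0 : 0 < δ) (hδ1 : δ < 1 / 2)
    (h0 : 0 ≤ 1 / 2 + δ) (h1 : 1 / 2 + δ ≤ 1) {r : Pt V} (h : r ∈ ball (pt v w (1 / 2 + δ) h0 h1)) :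
    (OnSeg r v w ∧ δ ≤ r v) ∨ 1 - δ ≤ r v := by
  rw [mem_ball] at h
  have hv := pt_left hvw (1 / 2 + δ) h0 h1
  have hw := pt_right hvw (1 / 2 + δ) h0 h1
  have hseg := pt_onSeg v w (1 / 2 + δ) h0 h1
  rcases h with ⟨a, b, h1, h2, h3⟩ | ⟨a, h⟩
  · left
    have hva : v = a ∨ v = b := by
      by_contra hcon
      push Not at hcon
      have := h1 v hcon.1 hcon.2
      rw [hv] at this
      linarith
    have hwa : w = a ∨ w = b := by
      by_contra hcon
      push Not at hcon
      have := h1 w hcon.1 hcon.2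
      rw [hw] at this
      linarith
    rcases hva with rfl | rfl
    · rcases hwa with rfl | rfl
      · exact absurd rfl hvw
      · refine ⟨h2, ?_⟩
        rw [hv] at h3
        have := (abs_le.1 h3).2
        linarith
    · rcases hwa with rfl | rfl
      · refine ⟨h2.symm, ?_⟩
        rw [hw] at h3
        have := (abs_le.1 h3).1
        have h4 := h2.sum_eq hvw.symm
        linarith
      · exact absurd rfl hvw
  · right
    by_cases hav : a = v
    · subst hav
      rw [hv] at h
      linarith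
    · have := r.le_one a
      by_cases haw : a = w
      · subst haw
        rw [hw] at h
        linarith
      · rw [hseg a hav haw] at h
        linarith

lemma pt_cover1 {v w : V} (hvw : v ≠ w) {δ : ℝ} (hδ0 : 0 < δ)
    (h0 : 0 ≤ 1 / 2 + δ) (h1 : 1 / 2 + δ ≤ 1) {r : Pt V} (h : OnSeg r v w) (h' : δ ≤ r v) :
    r ∈ ball (pt v w (1 / 2 + δ) h0 h1) := by
  rw [mem_ball]
  left
  refine ⟨v, w, pt_onSeg _ _ _ _ _, h, ?_⟩
  rw [pt_left hvw, abs_le]
  have := r.le_one v
  constructor <;> linarith

lemma pt_cover2 {v w : V} (hvw : v ≠ w) {δ : ℝ}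
    (h0 : 0 ≤ 1 / 2 + δ) (h1 : 1 / 2 + δ ≤ 1) {r : Pt V} (h : 1 - δ ≤ r v) :
    r ∈ ball (pt v w (1 / 2 + δ) h0 h1) := by
  rw [mem_ball]
  right
  refine ⟨v, ?_⟩
  rw [pt_left hvw]
  linarith

/-- The offset used for the arc of colour `i` leaving `v`. -/
noncomputable def Sys.δ {c : ℕ} (S : Sys V c) (i : Fin c) (v : V) : ℝ :=
  open Classical in if ∃ u, S.A i u v then (1 / 4) * ((S.rk i v : ℝ) / (S.rk i v + 1)) else 1 / 4

lemma Sys.δ_le {c : ℕ} (S : Sys V c) (i : Fin c) (v : V) : S.δ i v ≤ 1 / 4 := by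
  unfold Sys.δ
  split_ifs
  · have h1 : ((S.rk i v : ℝ) / (S.rk i v + 1)) ≤ 1 := by
      rw [div_le_one (by positivity)]
      linarith
    linarith
  · exact le_rfl

lemma Sys.δ_pos {c : ℕ} (S : Sys V c) {i : Fin c} {v w : V} (h : S.A i v w) : 0 < S.δ i v := by
  unfold Sys.δ
  have h1 : 0 < S.rk i v := lt_of_le_of_lt (Nat.zero_le _) (S.hrk i v w h)
  have h2 : (0 : ℝ) < S.rk i v := by exact_mod_cast h1
  split_ifs
  · positivity
  · norm_num

lemma Sys.δ_lt {c : ℕ} (S : Sys V c) {i : Fin c} {v w : V} (h : S.A i v w) :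
    S.δ i w < S.δ i v := by
  have hw : S.δ i w = (1 / 4) * ((S.rk i w : ℝ) / (S.rk i w + 1)) := by
    unfold Sys.δ
    rw [if_pos ⟨v, h⟩]
  rw [hw]
  have h1 : (S.rk i w : ℝ) < S.rk i v := by exact_mod_cast S.hrk i v w h
  have h0 : (0 : ℝ) ≤ S.rk i w := Nat.cast_nonneg _
  have h2 : (S.rk i w : ℝ) / (S.rk i w + 1) < (S.rk i v : ℝ) / (S.rk i v + 1) := by
    rw [div_lt_div_iff₀ (by positivity) (by positivity)]
    nlinarith
  have h3 : (S.rk i v : ℝ) / (S.rk i v + 1) ≤ 1 := by
    rw [div_le_one (by positivity)]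
    linarith
  unfold Sys.δ
  split_ifs
  · linarith
  · linarith

lemma Sys.ne {c : ℕ} (S : Sys V c) {i : Fin c} {v w : V} (h : S.A i v w) : v ≠ w := by
  rintro rfl
  exact lt_irrefl _ (S.hrk i v v h)

/-- The centre belonging to an arc. -/
noncomputable def Sys.centre {c : ℕ} (S : Sys V c) {i : Fin c} {v w : V} (h : S.A i v w) : Pt V :=
  pt v w (1 / 2 + S.δ i v) (by have := S.δ_pos h; linarith) (by have := S.δ_le i v; linarith)

theorem Sys.good {c : ℕ} (S : Sys V c) : Good V c := by
  classical
  refine ⟨fun i => {p | (∃ v w, ∃ h : S.A i v w, p = S.centre h) ∨ ∃ s, S.cen i s ∧ p = vtx s},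
    ?_, ?_⟩
  · -- disjointness
    have key : ∀ i v w (h : S.A i v w) s, S.cen i s → ∀ r, r ∈ ball (S.centre h) →
        r ∈ ball (vtx s) → False := by
      intro i v w h s hs r h1 h2
      have hd0 := S.δ_pos h
      have hd1 := S.δ_le i v
      have h3 := mem_ball_vtx h2
      have hsv : s ≠ v := by
        rintro rfl
        exact S.hcen2 i s w hs h
      have hsw : s ≠ w := by
        rintro rfl
        exact S.hcen3 i s v hs h
      rcases mem_ball_pt (S.ne h) hd0 (by linarith) _ _ h1 with ⟨h4, -⟩ | h4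
      · have := h4 s hsv hsw
        linarith
      · have := r.add_le_one hsv
        linarith
    rintro i p (⟨v, w, h, rfl⟩ | ⟨s, hs, rfl⟩) q (⟨v', w', h', rfl⟩ | ⟨s', hs', rfl⟩) hne
    · rw [Set.disjoint_left]
      intro r h1 h2
      have hd0 := S.δ_pos h
      have hd1 := S.δ_le i v
      have hd0' := S.δ_pos h'
      have hd1' := S.δ_le i v'
      have hvv : v ≠ v' := by
        rintro rfl
        have := S.fn i v w w' h h'
        subst this
        exact hne rfl
      rcases mem_ball_pt (S.ne h) hd0 (by linarith) _ _ h1 with ⟨h4, h5⟩ | h4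
      · rcases mem_ball_pt (S.ne h') hd0' (by linarith) _ _ h2 with ⟨h4', h5'⟩ | h4'
        · have e1 : v' = w := by
            by_contra hcon
            have := h4 v' (Ne.symm hvv) hcon
            linarith
          have e2 : v = w' := by
            by_contra hcon
            have := h4' v hvv hcon
            linarith
          subst e1
          subst e2
          have a1 := S.hrk i _ _ h
          have a2 := S.hrk i _ _ h'
          omega
        · have e1 : v' = w := by
            by_contra hcon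
            have := h4 v' (Ne.symm hvv) hcon
            linarith
          subst e1
          have a1 := S.δ_lt h
          have := r.add_le_one hvv
          linarith
      · rcases mem_ball_pt (S.ne h') hd0' (by linarith) _ _ h2 with ⟨h4', h5'⟩ | h4'
        · have e2 : v = w' := by
            by_contra hcon
            have := h4' v hvv hcon
            linarith
          subst e2
          have a1 := S.δ_lt h'
          have := r.add_le_one hvv
          linarith
        · have := r.add_le_one hvv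
          linarith
    · rw [Set.disjoint_left]
      intro r h1 h2
      exact key i v w h s' hs' r h1 h2
    · rw [Set.disjoint_left]
      intro r h1 h2
      exact key i v' w' h' s hs r h2 h1
    · exact absurd (by rw [S.hcen1 i s s' hs hs']) hne
  · -- cover
    intro r
    -- covering a point near a vertex
    have near : ∀ v, 3 / 4 ≤ r v → ∃ i, ∃ p ∈ {p | (∃ v w, ∃ h : S.A i v w, p = S.centre h) ∨
        ∃ s, S.cen i s ∧ p = vtx s}, r ∈ ball p := by
      intro v hv
      rcases S.free v with ⟨i, hi⟩ | ⟨i, ⟨w, hw⟩, hch⟩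
      · exact ⟨i, vtx v, Or.inr ⟨v, hi, rfl⟩, vtx_cover (by linarith)⟩
      · refine ⟨i, S.centre hw, Or.inl ⟨v, w, hw, rfl⟩, ?_⟩
        apply pt_cover2 (S.ne hw)
        have : S.δ i v = 1 / 4 := by
          unfold Sys.δ
          rw [if_neg]
          rintro ⟨u, hu⟩
          exact hch u hu
        rw [this]
        linarith
    have arc : ∀ i v w (h : S.A i v w), OnSeg r v w → ∃ i, ∃ p ∈ {p | (∃ v w, ∃ h : S.A i v w,
        p = S.centre h) ∨ ∃ s, S.cen i s ∧ p = vtx s}, r ∈ ball p := by
      intro i v w h hseg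
      by_cases hd : S.δ i v ≤ r v
      · exact ⟨i, S.centre h, Or.inl ⟨v, w, h, rfl⟩, pt_cover1 (S.ne h) (S.δ_pos h) _ _ hseg hd⟩
      · apply near w
        have h1 := hseg.sum_eq (S.ne h)
        have h2 := S.δ_le i v
        push Not at hd
        linarith
    obtain ⟨a, b, hab⟩ := r.seg
    by_cases hne : a = b
    · subst hne
      have : r a = 1 := OnSeg.self_eq hab
      exact near a (by linarith)
    · have hseg : OnSeg r a b := hab
      rcases S.cov a b hne with ⟨i, h | h⟩ | ⟨⟨i, hi⟩, ⟨j, hj⟩⟩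
      · exact arc i a b h hseg
      · exact arc i b a h hseg.symm
      · have h1 := hseg.sum_eq hne
        by_cases hr : 1 / 2 ≤ r a
        · exact ⟨i, vtx a, Or.inr ⟨a, hi, rfl⟩, vtx_cover hr⟩
        · push Not at hr
          exact ⟨j, vtx b, Or.inr ⟨b, hj, rfl⟩, vtx_cover (by linarith)⟩

end Pool.Agent.R59.CK
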