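import Pool.Agent.R59.CK.Circ
import Pool.Agent.R59.CK.Small

set_option linter.unusedSectionVars false

namespace Pool.Agent.R59.CK

open scoped BigOperators

theorem circ_good {μ e L c n : ℕ} (hμ : 2 ≤ μ) (he : e ≤ 1) (hL : L + 1 ≤ 2 * (μ + e))
    (hL2 : μ + e ≤ L) (hLc : L + 2 ≤ c) (hM : (μ + e) * (2 * μ + 1) ≤ c * L)
    (hc : μ + e + 3 ≤ c) (hn : n = c + (2 * μ + 1 + e)) : Good (Fin n) c := by
  obtain ⟨S⟩ := circ_sys hμ he hL hL2 hLc hM hc
  have hcard : Fintype.card (Fin c ⊕ (ZMod (2 * μ + 1) ⊕ Fin e)) = n := by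
    rw [Fintype.card_sum, Fintype.card_sum, Fintype.card_fin, Fintype.card_fin, ZMod.card, hn]
  exact (S.map (Fintype.equivFinOfCardEq hcard)).good

theorem gen {c t n : ℕ} (hc : 5 ≤ c) (ht : 5 ≤ t) (htc : c ≤ t + 1)
    (hq : t * (t - 1) ≤ 2 * (c * (c - 2))) (hne : ¬ (c = 5 ∧ t = 6)) (hn : n = c + t) :
    Good (Fin n) c := by
  obtain ⟨d, rfl⟩ : ∃ d, c = d + 2 := ⟨c - 2, by omega⟩
  simp only [Nat.add_sub_cancel] at hq
  rcases Nat.even_or_odd' t with ⟨k, hk | hk⟩
  · -- even
    obtain ⟨μ, rfl⟩ : ∃ μ, k = μ + 1 := ⟨k - 1, by omega⟩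
    have e1 : t - 1 = 2 * μ + 1 := by omega
    rw [e1, hk] at hq
    have h1 : μ + 1 + 3 ≤ d + 2 := by
      by_contra hcon
      push Not at hcon
      have h2 : d ≤ μ + 1 := by omega
      have h3 : 4 ≤ d := by
        by_contra h4
        have : d = 3 := by omega
        subst this
        have : 6 < t := by omega
        have h5 : 3 ≤ μ := by omega
        nlinarith
      nlinarith
    by_cases hL : d ≤ 2 * μ + 1
    · refine circ_good (μ := μ) (e := 1) (L := d) (by omega) le_rfl (by omega) (by omega)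
        le_rfl ?_ h1 (by omega)
      nlinarith
    · omega
  · have e1 : t - 1 = 2 * k := by omega
    rw [e1, hk] at hq
    have h1 : k + 0 + 3 ≤ d + 2 := by
      by_contra hcon
      push Not at hcon
      have h2 : d ≤ k := by omega
      nlinarith
    by_cases hL : d ≤ 2 * k - 1
    · refine circ_good (μ := k) (e := 0) (L := d) (by omega) (by omega) (by omega) (by omega)
        le_rfl ?_ h1 (by omega)
      nlinarith
    · have hd : d = 2 * k := by omega
      subst hd
      refine circ_good (μ := k) (e := 0) (L := 2 * k - 1) (by omega) (by omega) (by omega)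
        (by omega) (by omega) ?_ h1 (by omega)
      obtain ⟨k', rfl⟩ : ∃ k', k = k' + 1 := ⟨k - 1, by omega⟩
      have : 2 * (k' + 1) - 1 = 2 * k' + 1 := by omega
      rw [this]
      nlinarith

theorem upper_star {n c : ℕ} (hc : 1 ≤ c) (h : n * (n - 1) + 5 * c ≤ c ^ 2 + 2 * n * c)
    (h2 : 2 * c < n) : Good (Fin n) c := by
  obtain ⟨t, rfl⟩ : ∃ t, n = c + (t + 1) := ⟨n - c - 1, by omega⟩
  have e1 : c + (t + 1) - 1 = c + t := by omega
  rw [e1] at h
  have htc : c ≤ t := by omega
  have hkey : (t + 1) * t + 4 * c ≤ 2 * (c * c) := by nlinarith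
  have hc5 : 5 ≤ c := by
    by_contra hcon
    push Not at hcon
    interval_cases c <;> nlinarith
  have hc6 : c = 5 → t = 5 := by
    intro hc
    subst hc
    have : t < 6 := by
      by_contra hcon
      push Not at hcon
      nlinarith
    omega
  by_cases h11 : c = 5 ∧ t + 1 = 6
  · obtain ⟨rfl, h6⟩ := h11
    have : t = 5 := by omega
    subst this
    obtain ⟨S⟩ := small11
    exact S.good
  · refine gen (t := t + 1) hc5 ?_ (by omega) ?_ h11 rfl
    · omega
    · rw [Nat.add_sub_cancel]
      obtain ⟨d, rfl⟩ : ∃ d, c = d + 2 := ⟨c - 2, by omega⟩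
      rw [Nat.add_sub_cancel]
      nlinarith

theorem upper_half (n : ℕ) : Good (Fin n) ((n + 1) / 2) := by
  by_cases h10 : 10 ≤ n
  · have h1 : 5 ≤ (n + 1) / 2 := by omega
    have h2 : n = (n + 1) / 2 + n / 2 := by omega
    have h3 : n / 2 ≤ (n + 1) / 2 := by omega
    have h4 : (n + 1) / 2 ≤ n / 2 + 1 := by omega
    refine gen (t := n / 2) h1 (by omega) h4 ?_ (by omega) h2
    generalize (n + 1) / 2 = c at *
    generalize n / 2 = t at *
    obtain ⟨d, rfl⟩ : ∃ d, c = d + 2 := ⟨c - 2, by omega⟩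
    rw [Nat.add_sub_cancel]
    have h5 : t * (t - 1) ≤ (d + 2) * (d + 1) := Nat.mul_le_mul h3 (by omega)
    nlinarith
  · push Not at h10
    interval_cases n
    · refine ⟨fun i => i.elim0, fun i => i.elim0, ?_⟩
      intro x
      have := x.sum_one
      simp at this
    · refine ⟨fun _ => {vtx 0}, ?_, ?_⟩
      · rintro i p rfl q rfl h
        exact absurd rfl h
      · intro x
        refine ⟨0, vtx 0, rfl, vtx_cover ?_⟩
        have := x.sum_one
        rw [Fin.sum_univ_one] at this
        rw [this]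
        norm_num
    · refine ⟨fun _ => {pt 0 1 (1 / 2) (by norm_num) (by norm_num)}, ?_, ?_⟩
      · rintro i p rfl q rfl h
        exact absurd rfl h
      · intro x
        refine ⟨0, _, rfl, ?_⟩
        rw [mem_ball]
        left
        refine ⟨0, 1, pt_onSeg _ _ _ _ _, ?_, ?_⟩
        · intro v h0 h1
          exfalso
          have := v.2
          have h2 : v.1 ≠ 0 := fun h => h0 (Fin.ext h)
          have h3 : v.1 ≠ 1 := fun h => h1 (Fin.ext h)
          omega
        · rw [pt_left (by decide)]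
          have h1 := x.nonneg 0
          have h2 := x.le_one 0
          rw [abs_le]
          constructor <;> linarith
    · obtain ⟨S⟩ := small3
      exact S.good
    · obtain ⟨S⟩ := small4
      exact S.good
    · obtain ⟨S⟩ := small5
      exact S.good
    · obtain ⟨S⟩ := small6
      exact S.good
    · obtain ⟨S⟩ := small7
      exact S.good
    · obtain ⟨S⟩ := small8
      exact S.good
    · obtain ⟨S⟩ := small9
      exact S.good

end Pool.Agent.R59.CK
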